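import Pool.Agent.H20.MR.Small

/-!
Augmentation ideals of integral group rings of commutative groups.
-/

set_option autoImplicit false
set_option linter.unusedSectionVars false

namespace Pool.Agent.H20.MR

open Finset

/-- The augmentation ideal of the integral group ring: the ideal generated by the elements
`h - 1`. -/
noncomputable def aug (H : Type) [CommGroup H] : Ideal (MonoidAlgebra ℤ H) :=
  Ideal.span (Set.range fun h : H => MonoidAlgebra.of ℤ H h - 1)

/-- The ring homomorphism of integral group rings induced by a group homomorphism. -/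
noncomputable def mp {H C : Type} [CommGroup H] [CommGroup C] (f : H →* C) :
    MonoidAlgebra ℤ H →+* MonoidAlgebra ℤ C :=
  MonoidAlgebra.mapDomainRingHom ℤ f

section basics

variable {H : Type} [CommGroup H] {C : Type} [CommGroup C]

/-- `δ h = h - 1`. -/
noncomputable def del (h : H) : MonoidAlgebra ℤ H := MonoidAlgebra.of ℤ H h - 1

theorem del_mem (h : H) : del h ∈ aug H := Ideal.subset_span ⟨h, rfl⟩

theorem del_one : del (1 : H) = 0 := by rw [del, map_one, sub_self]

theorem of_eq (h : H) : MonoidAlgebra.of ℤ H h = 1 + del h := by rw [del]; ring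

theorem mp_of (f : H →* C) (h : H) :
    mp f (MonoidAlgebra.of ℤ H h) = MonoidAlgebra.of ℤ C (f h) := by
  simp [mp]

theorem mp_del (f : H →* C) (h : H) : mp f (del h) = del (f h) := by
  rw [del, map_sub, map_one, mp_of, del]

theorem mp_comp {D : Type} [CommGroup D] (g : C →* D) (f : H →* C) (x : MonoidAlgebra ℤ H) :
    mp (g.comp f) x = mp g (mp f x) := by
  rw [mp, MonoidAlgebra.mapDomainRingHom_comp]
  rfl

theorem mp_mem (f : H →* C) {n : ℕ} {x : MonoidAlgebra ℤ H} (hx : x ∈ aug H ^ n) :
    mp f x ∈ aug C ^ n := by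
  have h1 : (aug H).map (mp f) ≤ aug C := by
    rw [aug, Ideal.map_span, Ideal.span_le]
    rintro _ ⟨_, ⟨h, rfl⟩, rfl⟩
    have := mp_del f h
    rw [del] at this
    simp only [this]
    exact del_mem _
  have h2 : mp f x ∈ ((aug H) ^ n).map (mp f) := Ideal.mem_map_of_mem _ hx
  rw [Ideal.map_pow] at h2
  exact Ideal.pow_right_mono h1 n h2

/-- The augmentation. -/
noncomputable def eps : MonoidAlgebra ℤ H →ₐ[ℤ] ℤ := MonoidAlgebra.lift ℤ ℤ H 1

theorem eps_of (h : H) : eps (MonoidAlgebra.of ℤ H h) = 1 := by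
  rw [eps, MonoidAlgebra.lift_of]
  rfl

theorem eps_del (h : H) : eps (del h) = 0 := by
  rw [del, map_sub, eps_of, map_one, sub_self]

theorem eps_of_mem {x : MonoidAlgebra ℤ H} (hx : x ∈ aug H) : eps x = 0 := by
  have h1 : aug H ≤ RingHom.ker (eps (H := H)) := by
    rw [aug, Ideal.span_le]
    rintro _ ⟨h, rfl⟩
    exact eps_del h
  exact h1 hx

theorem sub_eps_mem (x : MonoidAlgebra ℤ H) : x - ((eps x : ℤ) : MonoidAlgebra ℤ H) ∈ aug H := by
  induction x using MonoidAlgebra.induction_on with
  | of h =>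
    rw [eps_of]
    simpa [del] using del_mem h
  | add x y hx hy =>
    rw [map_add]
    have := Ideal.add_mem _ hx hy
    push_cast
    convert this using 1
    ring
  | smul r x hx =>
    rw [map_smul]
    have := Ideal.mul_mem_left _ (r : MonoidAlgebra ℤ H) hx
    simp only [smul_eq_mul, Int.cast_mul, zsmul_eq_mul]
    convert this using 1
    ring

theorem del_mul (a b : H) : del (a * b) = del a + del b + del a * del b := by
  simp only [del, map_mul]
  ring

theorem del_pow_sub (h : H) (k : ℕ) :
    del (h ^ k) - (k : MonoidAlgebra ℤ H) * del h ∈ aug H ^ 2 := by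
  induction k with
  | zero => simp [del_one]
  | succ k ih =>
    have h1 : del (h ^ (k + 1)) - ((k + 1 : ℕ) : MonoidAlgebra ℤ H) * del h
        = (1 + del h) * (del (h ^ k) - (k : MonoidAlgebra ℤ H) * del h)
          + (k : MonoidAlgebra ℤ H) * (del h * del h) := by
      rw [pow_succ, del_mul]
      push_cast
      ring
    rw [h1]
    refine Ideal.add_mem _ (Ideal.mul_mem_left _ _ ih) (Ideal.mul_mem_left _ _ ?_)
    rw [pow_two]
    exact Ideal.mul_mem_mul (del_mem h) (del_mem h)

end basics

section gens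

variable {H : Type} [CommGroup H] {ι : Type} [Fintype ι] [DecidableEq ι]

theorem aug_eq_span {h : ι → H} (hh : Subgroup.closure (Set.range h) = ⊤) :
    aug H = Ideal.span (Set.range fun i => del (h i)) := by
  apply le_antisymm
  · rw [aug, Ideal.span_le]
    rintro _ ⟨g, rfl⟩
    have hg : g ∈ Subgroup.closure (Set.range h) := by rw [hh]; trivial
    change del g ∈ _
    induction hg using Subgroup.closure_induction with
    | mem g hg =>
      obtain ⟨i, rfl⟩ := hg
      exact Ideal.subset_span ⟨i, rfl⟩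
    | one => rw [del_one]; exact Submodule.zero_mem _
    | mul a b _ _ iha ihb =>
      rw [del_mul]
      exact Ideal.add_mem _ (Ideal.add_mem _ iha ihb) (Ideal.mul_mem_left _ _ ihb)
    | inv a _ iha =>
      have h1 : del a⁻¹ = - (MonoidAlgebra.of ℤ H a⁻¹ * del a) := by
        rw [del, del, mul_sub, ← map_mul, inv_mul_cancel, map_one, mul_one]
        ring
      rw [h1]
      exact Submodule.neg_mem _ (Ideal.mul_mem_left _ _ iha)
  · rw [Ideal.span_le]
    rintro _ ⟨i, rfl⟩
    exact del_mem _

/-- Every element of `I ^ n` is a form of degree `n` in the generators modulo `I ^ (n + 1)`. -/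
theorem exists_form {h : ι → H} (hh : Subgroup.closure (Set.range h) = ⊤) (n : ℕ) :
    ∀ x ∈ aug H ^ n, ∃ k : (ι → ℕ) → ℤ,
      x - ∑ α ∈ piAntidiag (univ : Finset ι) n,
        (k α : MonoidAlgebra ℤ H) * mon (fun i => del (h i)) α ∈ aug H ^ (n + 1) := by
  set X : ι → MonoidAlgebra ℤ H := fun i => del (h i) with hX
  induction n with
  | zero =>
    intro x _
    refine ⟨fun _ => eps x, ?_⟩
    have h1 : piAntidiag (univ : Finset ι) 0 = {0} := by
      ext α
      rw [mem_deg, mem_singleton]
      constructor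
      · intro h0
        funext i
        exact (sum_eq_zero_iff.1 h0) i (mem_univ i)
      · rintro rfl
        simp
    rw [h1, sum_singleton]
    have h2 : mon X 0 = 1 := by simp [mon]
    rw [h2, mul_one, zero_add, pow_one]
    exact sub_eps_mem x
  | succ n ih =>
    intro x hx
    have hadd : ∀ x y : MonoidAlgebra ℤ H,
        (∃ k : (ι → ℕ) → ℤ, x - ∑ α ∈ piAntidiag (univ : Finset ι) (n + 1),
          (k α : MonoidAlgebra ℤ H) * mon X α ∈ aug H ^ (n + 1 + 1)) →
        (∃ k : (ι → ℕ) → ℤ, y - ∑ α ∈ piAntidiag (univ : Finset ι) (n + 1),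
          (k α : MonoidAlgebra ℤ H) * mon X α ∈ aug H ^ (n + 1 + 1)) →
        (∃ k : (ι → ℕ) → ℤ, (x + y) - ∑ α ∈ piAntidiag (univ : Finset ι) (n + 1),
          (k α : MonoidAlgebra ℤ H) * mon X α ∈ aug H ^ (n + 1 + 1)) := by
      rintro x y ⟨k, hk⟩ ⟨l, hl⟩
      refine ⟨k + l, ?_⟩
      have := Ideal.add_mem _ hk hl
      convert this using 1
      simp only [Pi.add_apply, Int.cast_add, add_mul, sum_add_distrib]
      ring
    have hbase : ∀ β : ι → ℕ, ∑ i, β i = n + 1 → ∀ m : ℤ,
        (∃ k : (ι → ℕ) → ℤ, (m : MonoidAlgebra ℤ H) * mon X β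
          - ∑ α ∈ piAntidiag (univ : Finset ι) (n + 1),
          (k α : MonoidAlgebra ℤ H) * mon X α ∈ aug H ^ (n + 1 + 1)) := by
      intro β hβ m
      refine ⟨fun α => if α = β then m else 0, ?_⟩
      rw [sum_eq_single_of_mem β (mem_deg.2 hβ)]
      · simp
      · intro α _ hne
        simp [hne]
    have hsmall : ∀ z ∈ aug H ^ (n + 1 + 1),
        (∃ k : (ι → ℕ) → ℤ, z - ∑ α ∈ piAntidiag (univ : Finset ι) (n + 1),
          (k α : MonoidAlgebra ℤ H) * mon X α ∈ aug H ^ (n + 1 + 1)) := by
      intro z hz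
      exact ⟨fun _ => 0, by simpa using hz⟩
    have hsum : ∀ (T : Finset ι) (f : ι → MonoidAlgebra ℤ H),
        (∀ i ∈ T, ∃ k : (ι → ℕ) → ℤ, f i - ∑ α ∈ piAntidiag (univ : Finset ι) (n + 1),
          (k α : MonoidAlgebra ℤ H) * mon X α ∈ aug H ^ (n + 1 + 1)) →
        ∃ k : (ι → ℕ) → ℤ, ∑ i ∈ T, f i - ∑ α ∈ piAntidiag (univ : Finset ι) (n + 1),
          (k α : MonoidAlgebra ℤ H) * mon X α ∈ aug H ^ (n + 1 + 1) := by
      intro T f
      induction T using Finset.induction_on with
      | empty =>
        intro _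
        simpa using hsmall 0 (Submodule.zero_mem _)
      | insert a T ha ihT =>
        intro hf
        rw [sum_insert ha]
        exact hadd _ _ (hf a (mem_insert_self _ _))
          (ihT fun i hi => hf i (mem_insert_of_mem hi))
    have hsum' : ∀ (T : Finset (ι → ℕ)) (f : (ι → ℕ) → MonoidAlgebra ℤ H),
        (∀ i ∈ T, ∃ k : (ι → ℕ) → ℤ, f i - ∑ α ∈ piAntidiag (univ : Finset ι) (n + 1),
          (k α : MonoidAlgebra ℤ H) * mon X α ∈ aug H ^ (n + 1 + 1)) →
        ∃ k : (ι → ℕ) → ℤ, ∑ i ∈ T, f i - ∑ α ∈ piAntidiag (univ : Finset ι) (n + 1),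
          (k α : MonoidAlgebra ℤ H) * mon X α ∈ aug H ^ (n + 1 + 1) := by
      intro T f
      induction T using Finset.induction_on with
      | empty =>
        intro _
        simpa using hsmall 0 (Submodule.zero_mem _)
      | insert a T ha ihT =>
        intro hf
        rw [sum_insert ha]
        exact hadd _ _ (hf a (mem_insert_self _ _))
          (ihT fun i hi => hf i (mem_insert_of_mem hi))
    rw [pow_succ] at hx
    refine Submodule.mul_induction_on hx ?_ hadd
    intro a ha b hb
    rw [aug_eq_span hh, Ideal.mem_span_range_iff_exists_fun] at hb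
    obtain ⟨z, rfl⟩ := hb
    obtain ⟨k, hk⟩ := ih a ha
    rw [mul_sum]
    apply hsum
    intro i _
    set a' := a - ∑ α ∈ piAntidiag (univ : Finset ι) n, (k α : MonoidAlgebra ℤ H) * mon X α
      with ha'
    have h1 : a * (z i * del (h i))
        = (∑ α ∈ piAntidiag (univ : Finset ι) n,
            ((eps (z i) * k α : ℤ) : MonoidAlgebra ℤ H) * mon X (α + Pi.single i 1))
          + (((eps (z i) : ℤ) : MonoidAlgebra ℤ H) * (a' * X i)
            + a * X i * (z i - ((eps (z i) : ℤ) : MonoidAlgebra ℤ H))) := by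
      have h2 : a = a' + ∑ α ∈ piAntidiag (univ : Finset ι) n,
          (k α : MonoidAlgebra ℤ H) * mon X α := by rw [ha']; ring
      have h3 : ∑ α ∈ piAntidiag (univ : Finset ι) n,
            ((eps (z i) * k α : ℤ) : MonoidAlgebra ℤ H) * mon X (α + Pi.single i 1)
          = ((eps (z i) : ℤ) : MonoidAlgebra ℤ H) * (∑ α ∈ piAntidiag (univ : Finset ι) n,
            (k α : MonoidAlgebra ℤ H) * mon X α) * X i := by
        rw [mul_assoc, sum_mul, mul_sum]
        refine sum_congr rfl fun α _ => ?_
        rw [mon_add, mon_single, pow_one]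
        push_cast
        ring
      rw [h3, h2]
      simp only [hX]
      ring
    rw [h1]
    apply hadd
    · apply hsum'
      intro α hα
      refine hbase _ ?_ _
      have := mem_deg.1 hα
      simp [sum_add_distrib, this]
    · apply hsmall
      refine Ideal.add_mem _ (Ideal.mul_mem_left _ _ ?_) ?_
      · rw [pow_succ (aug H) (n + 1)]
        exact Ideal.mul_mem_mul hk (del_mem _)
      · rw [pow_succ (aug H) (n + 1), pow_succ (aug H) n]
        exact Ideal.mul_mem_mul (Ideal.mul_mem_mul ha (del_mem _)) (sub_eps_mem _)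

end gens

section cyclic

variable {C : Type} [CommGroup C] [Finite C]

/-- An element killed by `g - 1`, `g` a generator, has augmentation divisible by the order, and
vanishes if its augmentation is zero. -/
theorem killed {g : C} (hg : ∀ x : C, x ∈ Subgroup.zpowers g) {u : MonoidAlgebra ℤ C}
    (hu : del g * u = 0) : (Nat.card C : ℤ) ∣ eps u ∧ (eps u = 0 → u = 0) := by
  classical
  cases nonempty_fintype C
  have h1 : MonoidAlgebra.of ℤ C g * u = u := by
    have : MonoidAlgebra.of ℤ C g * u = u + del g * u := by rw [of_eq]; ring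
    rw [this, hu, add_zero]
  have h2 : ∀ x : C, u.coeff (g⁻¹ * x) = u.coeff x := by
    intro x
    conv_rhs => rw [← h1]
    rw [MonoidAlgebra.of_apply, MonoidAlgebra.coeff_single_mul_apply, one_mul]
  have h2' : ∀ x : C, u.coeff (g * x) = u.coeff x := by
    intro x
    have := h2 (g * x)
    rw [inv_mul_cancel_left] at this
    exact this.symm
  have h3 : ∀ x : C, u.coeff x = u.coeff 1 := by
    intro x
    obtain ⟨m, rfl⟩ := Subgroup.mem_zpowers_iff.1 (hg x)
    induction m using Int.induction_on with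
    | zero => simp
    | succ m ih =>
      rw [zpow_add_one, mul_comm, h2']
      exact ih
    | pred m ih =>
      rw [zpow_sub_one, mul_comm, h2]
      exact ih
  have h4 : eps u = (Nat.card C : ℤ) * u.coeff 1 := by
    rw [eps, MonoidAlgebra.lift_apply, Finsupp.sum_fintype _ _ (fun i => by simp)]
    simp [h3, Nat.card_eq_fintype_card]
  refine ⟨⟨_, h4⟩, fun h0 => ?_⟩
  rw [h0] at h4
  have h5 : u.coeff 1 = 0 := by
    rcases mul_eq_zero.1 h4.symm with h | h
    · exact absurd h (by exact_mod_cast Nat.card_pos.ne')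
    · exact h
  ext x
  rw [h3 x, h5]
  simp

theorem killed_pow {g : C} (hg : ∀ x : C, x ∈ Subgroup.zpowers g) (n : ℕ) :
    ∀ u : MonoidAlgebra ℤ C, del g ^ (n + 1) * u = 0 → del g * u = 0 := by
  induction n with
  | zero => intro u hu; simpa using hu
  | succ n ih =>
    intro u hu
    have h1 : del g ^ (n + 1) * (del g * u) = 0 := by rw [← hu]; ring
    have h2 := ih _ h1
    exact (killed hg h2).2 (by rw [map_mul, eps_del, zero_mul])

theorem dvd_of_mem {g : C} (hg : ∀ x : C, x ∈ Subgroup.zpowers g) {n : ℕ} (hn : 1 ≤ n) {m : ℤ}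
    (hm : (m : MonoidAlgebra ℤ C) * del g ^ n ∈ aug C ^ (n + 1)) : (Nat.card C : ℤ) ∣ m := by
  classical
  have hcl : Subgroup.closure (Set.range fun _ : Unit => g) = ⊤ := by
    rw [Set.range_const, ← Subgroup.zpowers_eq_closure]
    exact (Subgroup.eq_top_iff' _).2 hg
  rw [aug_eq_span hcl, Set.range_const, Ideal.span_singleton_pow,
    Ideal.mem_span_singleton'] at hm
  obtain ⟨z, hz⟩ := hm
  obtain ⟨n, rfl⟩ : ∃ n', n = n' + 1 := ⟨n - 1, by omega⟩
  set w : MonoidAlgebra ℤ C := (m : MonoidAlgebra ℤ C) - del g * z with hw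
  have h1 : del g ^ (n + 1) * w = 0 := by
    have : del g ^ (n + 1) * w = (m : MonoidAlgebra ℤ C) * del g ^ (n + 1)
        - z * del g ^ (n + 1 + 1) := by rw [hw]; ring
    rw [this, hz, sub_self]
  have h2 := (killed hg (killed_pow hg n w h1)).1
  have h3 : eps w = m := by
    rw [hw, map_sub, map_mul, eps_del, zero_mul, sub_zero]
    simp
  rwa [h3] at h2

end cyclic

end Pool.Agent.H20.MR
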