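import Mathlib

/-!
Finite differences of integer polynomials written as sums over exponent vectors of fixed degree.
-/

set_option autoImplicit false

namespace Pool.Agent.H20.MR

open Finset

/-- One variable: the alternating binomial sum of `j ^ b` vanishes for `b < a`. -/
theorem altSum_lt {a b : ℕ} (h : b < a) :
    ∑ j ∈ range (a + 1), ((-1 : ℤ) ^ (a - j) * (a.choose j : ℤ)) * (j : ℤ) ^ b = 0 := by
  have h1 := fwdDiff_iter_eq_sum_shift (M := ℤ) (G := ℤ) 1 (fun r : ℤ => r ^ b) a 0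
  rw [fwdDiff_iter_pow_eq_zero_of_lt h] at h1
  simpa using h1.symm

/-- One variable: the alternating binomial sum of `j ^ a` is `a!`. -/
theorem altSum_eq (a : ℕ) :
    ∑ j ∈ range (a + 1), ((-1 : ℤ) ^ (a - j) * (a.choose j : ℤ)) * (j : ℤ) ^ a
      = (a.factorial : ℤ) := by
  have h1 := fwdDiff_iter_eq_sum_shift (M := ℤ) (G := ℤ) 1 (fun r : ℤ => r ^ a) a 0
  rw [fwdDiff_iter_eq_factorial] at h1
  simpa using h1.symm

variable {ι : Type} [Fintype ι] [DecidableEq ι]

/-- If `N` divides the values of `∑ k β c^β` (all exponents of degree `n`) at all natural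
vectors `c ≤ α`, then `N` divides `α! k α`. -/
theorem dvd_factorial_mul {n : ℕ} (k : (ι → ℕ) → ℤ) (N : ℤ) (α : ι → ℕ)
    (hα : α ∈ piAntidiag (univ : Finset ι) n)
    (h : ∀ c : ι → ℕ, (∀ i, c i ≤ α i) →
      N ∣ ∑ β ∈ piAntidiag (univ : Finset ι) n, k β * ∏ i, (c i : ℤ) ^ β i) :
    N ∣ (∏ i, ((α i).factorial : ℤ)) * k α := by
  classical
  set w : (ι → ℕ) → ℤ := fun c => ∏ i, ((-1 : ℤ) ^ (α i - c i) * ((α i).choose (c i) : ℤ))
    with hw
  have key : ∑ c ∈ Fintype.piFinset (fun i => range (α i + 1)),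
      w c * (∑ β ∈ piAntidiag (univ : Finset ι) n, k β * ∏ i, (c i : ℤ) ^ β i)
      = (∏ i, ((α i).factorial : ℤ)) * k α := by
    have h1 : ∀ c : ι → ℕ, w c * (∑ β ∈ piAntidiag (univ : Finset ι) n,
        k β * ∏ i, (c i : ℤ) ^ β i)
        = ∑ β ∈ piAntidiag (univ : Finset ι) n, k β *
          ∏ i, (((-1 : ℤ) ^ (α i - c i) * ((α i).choose (c i) : ℤ)) * (c i : ℤ) ^ β i) := by
      intro c
      rw [mul_sum]
      refine sum_congr rfl fun β _ => ?_
      rw [prod_mul_distrib, hw]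
      ring
    simp_rw [h1]
    rw [sum_comm]
    have h2 : ∀ β ∈ piAntidiag (univ : Finset ι) n,
        ∑ c ∈ Fintype.piFinset (fun i => range (α i + 1)), k β *
          ∏ i, (((-1 : ℤ) ^ (α i - c i) * ((α i).choose (c i) : ℤ)) * (c i : ℤ) ^ β i)
        = k β * ∏ i, ∑ j ∈ range (α i + 1),
            ((-1 : ℤ) ^ (α i - j) * ((α i).choose j : ℤ)) * (j : ℤ) ^ β i := by
      intro β _
      rw [← mul_sum, prod_univ_sum]
    rw [sum_congr rfl h2, sum_eq_single_of_mem α hα]
    · simp_rw [altSum_eq]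
      ring
    · intro β hβ hne
      have hsum : ∑ i, β i = ∑ i, α i := by
        rw [mem_piAntidiag] at hα hβ
        rw [hα.1, hβ.1]
      have hex : ∃ i, β i < α i := by
        by_contra hcon
        push Not at hcon
        apply hne
        funext i
        have := (sum_eq_sum_iff_of_le (fun i _ => hcon i)).1 hsum.symm i (mem_univ i)
        exact this.symm
      obtain ⟨i, hi⟩ := hex
      rw [prod_eq_zero (mem_univ i) (altSum_lt hi), mul_zero]
  rw [← key]
  refine dvd_sum fun c hc => Dvd.dvd.mul_left (h c fun i => ?_) _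
  have := Fintype.mem_piFinset.1 hc i
  exact Nat.lt_succ_iff.1 (mem_range.1 this)

end Pool.Agent.H20.MR
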