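import Pool.Agent.H20.MR.Diff

/-!
Forms over the integers that vanish at all points modulo `p`, evaluated at elements `x i` of an
ideal `I` satisfying `p * x i ∈ I ^ 2` and `x i ^ p * x j ≡ x i * x j ^ p mod I ^ (p + 2)`.
-/

set_option autoImplicit false
set_option linter.unusedSectionVars false

namespace Pool.Agent.H20.MR

open Finset

variable {ι : Type} [Fintype ι] [DecidableEq ι] {S : Type} [CommRing S]

/-- The monomial with exponent vector `α`. -/
def mon (x : ι → S) (α : ι → ℕ) : S := ∏ i, x i ^ α i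

theorem mon_mem {I : Ideal S} {x : ι → S} (hx : ∀ i, x i ∈ I) (α : ι → ℕ) :
    mon x α ∈ I ^ (∑ i, α i) := by
  rw [mon, ← prod_pow_eq_pow_sum]
  exact Ideal.prod_mem_prod fun i _ => Ideal.pow_mem_pow (hx i) _

theorem mon_add (x : ι → S) (α β : ι → ℕ) : mon x (α + β) = mon x α * mon x β := by
  simp [mon, pow_add, prod_mul_distrib]

theorem mon_single (x : ι → S) (i : ι) (a : ℕ) : mon x (Pi.single i a) = x i ^ a := by
  rw [mon, prod_eq_single_of_mem i (mem_univ i)]
  · simp
  · intro j _ hj
    simp [hj]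

theorem mem_deg {n : ℕ} {α : ι → ℕ} :
    α ∈ piAntidiag (univ : Finset ι) n ↔ ∑ i, α i = n := by
  simp [mem_piAntidiag]

/-- Multiplying a monomial of positive degree by `N` gains one degree when `N * x j ∈ I ^ 2`. -/
theorem mul_mon_mem {I : Ideal S} {x : ι → S} (hx : ∀ i, x i ∈ I) {n : ℕ} {α : ι → ℕ}
    (hα : ∑ i, α i = n) {j : ι} (hj : α j ≠ 0) {N : S} (hN : N * x j ∈ I ^ 2) :
    N * mon x α ∈ I ^ (n + 1) := by
  set δ : ι → ℕ := α - Pi.single j 1 with hδ
  have hdec : α = Pi.single j 1 + δ := by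
    funext i
    by_cases h : i = j
    · subst h
      simp [hδ]
      omega
    · simp [hδ, h]
  have hs : 1 + ∑ i, δ i = n := by
    rw [← hα]
    conv_rhs => rw [hdec]
    simp [sum_add_distrib]
  have h1 : N * mon x α = (N * x j) * mon x δ := by
    conv_lhs => rw [hdec]
    rw [mon_add, mon_single, pow_one]
    ring
  rw [h1]
  have h2 := Ideal.mul_mem_mul hN (mon_mem hx δ)
  rw [← pow_add] at h2
  have h3 : 2 + ∑ i, δ i = n + 1 := by omega
  rwa [h3] at h2

/-- Reduction of exponents modulo `p - 1`, keeping positivity. -/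
def red (p a : ℕ) : ℕ := if a = 0 then 0 else (a - 1) % (p - 1) + 1

theorem red_le {p : ℕ} (hp : 2 ≤ p) (a : ℕ) : red p a ≤ p - 1 := by
  unfold red
  split_ifs
  · omega
  · have := Nat.mod_lt (a - 1) (show 0 < p - 1 by omega)
    omega

theorem red_of_le {p a : ℕ} (ha : a ≤ p - 1) : red p a = a := by
  unfold red
  split_ifs with h
  · exact h.symm
  · rw [Nat.mod_eq_of_lt (by omega)]
    omega

theorem red_eq_zero {p a : ℕ} : red p a = 0 ↔ a = 0 := by
  unfold red
  split_ifs with h
  · simp [h]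
  · simp [h]

theorem red_add {p a : ℕ} (ha : a ≠ 0) : red p (a + (p - 1)) = red p a := by
  unfold red
  rw [if_neg (by omega), if_neg ha]
  have : a + (p - 1) - 1 = (a - 1) + (p - 1) := by omega
  rw [this, Nat.add_mod_right]

theorem pow_red {p : ℕ} [hp : Fact p.Prime] (c : ZMod p) (a : ℕ) : c ^ red p a = c ^ a := by
  unfold red
  split_ifs with h
  · rw [h]
  · by_cases hc : c = 0
    · rw [hc, zero_pow (by omega), zero_pow h]
    · have h1 := ZMod.pow_card_sub_one_eq_one hc
      have h2 : a = ((a - 1) % (p - 1) + 1) + (p - 1) * ((a - 1) / (p - 1)) := by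
        have := Nat.mod_add_div (a - 1) (p - 1)
        omega
      conv_rhs => rw [h2, pow_add, pow_mul, h1, one_pow, mul_one]

/-- One transfer step: `x i ^ p * x j ≡ x i * x j ^ p`. -/
theorem transfer {I : Ideal S} {x : ι → S} (hx : ∀ i, x i ∈ I) {p : ℕ}
    (hp1 : 1 ≤ p) (hrel : ∀ i j, x i ^ p * x j - x i * x j ^ p ∈ I ^ (p + 2))
    {n : ℕ} {α : ι → ℕ} (hα : ∑ i, α i = n) {i j : ι} (hij : i ≠ j) (hi : p ≤ α i)
    (hj : 1 ≤ α j) :
    mon x α - mon x (α - Pi.single i (p - 1) + Pi.single j (p - 1)) ∈ I ^ (n + 1) := by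
  set δ : ι → ℕ := α - Pi.single i p - Pi.single j 1 with hδ
  have h1 : α = Pi.single i p + Pi.single j 1 + δ := by
    funext m
    by_cases hm : m = i
    · subst hm
      simp [hδ, hij]
      omega
    · by_cases hm' : m = j
      · subst hm'
        simp [hδ, hm]
        omega
      · simp [hδ, hm, hm']
  have h2 : α - Pi.single i (p - 1) + Pi.single j (p - 1)
      = Pi.single i 1 + Pi.single j p + δ := by
    funext m
    by_cases hm : m = i
    · subst hm
      simp [hδ, hij]
      omega
    · by_cases hm' : m = j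
      · subst hm'
        simp [hδ, hm]
        omega
      · simp [hδ, hm, hm']
  have hs : p + 1 + ∑ m, δ m = n := by
    rw [← hα]
    conv_rhs => rw [h1]
    simp [sum_add_distrib]
  have h3 : mon x α - mon x (α - Pi.single i (p - 1) + Pi.single j (p - 1))
      = (x i ^ p * x j - x i * x j ^ p) * mon x δ := by
    rw [h2]
    conv_lhs => rw [h1]
    simp only [mon_add, mon_single, pow_one]
    ring
  rw [h3]
  have h4 := Ideal.mul_mem_mul (hrel i j) (mon_mem hx δ)
  rw [← pow_add] at h4
  have h5 : p + 2 + ∑ m, δ m = n + 1 := by omega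
  rwa [h5] at h4

/-- Normal form: all exponents but the one at `j` can be made at most `p - 1`. -/
theorem exists_normal {I : Ideal S} {x : ι → S} (hx : ∀ i, x i ∈ I) {p : ℕ}
    (hp2 : 2 ≤ p) (hrel : ∀ i j, x i ^ p * x j - x i * x j ^ p ∈ I ^ (p + 2))
    {n : ℕ} (j : ι) : ∀ (m : ℕ) (α : ι → ℕ), ∑ i, α i = n → 1 ≤ α j →
      ∑ i ∈ univ.erase j, α i = m →
      ∃ γ : ι → ℕ, ∑ i, γ i = n ∧ (∀ i, i ≠ j → γ i ≤ p - 1) ∧
        (∀ i, red p (γ i) = red p (α i)) ∧ mon x α - mon x γ ∈ I ^ (n + 1) := by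
  intro m
  induction m using Nat.strong_induction_on with
  | _ m ih =>
    intro α hα hj hm
    by_cases hall : ∀ i, i ≠ j → α i ≤ p - 1
    · exact ⟨α, hα, hall, fun _ => rfl, by simp⟩
    · push Not at hall
      obtain ⟨i, hij, hi⟩ := hall
      have hip : p ≤ α i := by omega
      set α' : ι → ℕ := α - Pi.single i (p - 1) + Pi.single j (p - 1) with hα'
      have hi' : α' i = α i - (p - 1) := by simp [hα', hij]
      have hj' : α' j = α j + (p - 1) := by simp [hα', hij.symm]
      have hr' : ∀ l, l ≠ i → l ≠ j → α' l = α l := by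
        intro l h1 h2
        simp [hα', h1, h2]
      have hsum' : ∑ l ∈ univ.erase j, α' l < ∑ l ∈ univ.erase j, α l := by
        apply sum_lt_sum
        · intro l hl
          have hlj : l ≠ j := (mem_erase.1 hl).1
          by_cases hli : l = i
          · subst hli
            omega
          · rw [hr' l hli hlj]
        · exact ⟨i, by simp [hij], by omega⟩
      have htot : ∑ l, α' l = n := by
        have e1 : ∑ l ∈ (univ.erase j).erase i, α' l = ∑ l ∈ (univ.erase j).erase i, α l := by
          refine sum_congr rfl fun l hl => ?_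
          simp only [mem_erase, mem_univ, and_true] at hl
          exact hr' l hl.1 hl.2
        have e2 := add_sum_erase (univ : Finset ι) α' (mem_univ j)
        have e3 := add_sum_erase (univ : Finset ι) α (mem_univ j)
        have e4 := add_sum_erase (univ.erase j) α' (show i ∈ univ.erase j by simp [hij])
        have e5 := add_sum_erase (univ.erase j) α (show i ∈ univ.erase j by simp [hij])
        omega
      obtain ⟨γ, g1, g2, g3, g4⟩ := ih _ (hm ▸ hsum') α' htot (by omega) rfl
      refine ⟨γ, g1, g2, fun l => ?_, ?_⟩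
      · rw [g3 l]
        by_cases hli : l = i
        · subst hli
          rw [hi']
          have : α l = (α l - (p - 1)) + (p - 1) := by omega
          conv_rhs => rw [this]
          rw [red_add (by omega)]
        · by_cases hlj : l = j
          · subst hlj
            rw [hj', red_add (by omega)]
          · rw [hr' l hli hlj]
      · have h1 := transfer hx (by omega) hrel hα hij hip hj
        have h2 := Ideal.add_mem _ h1 g4
        have h3 : mon x α - mon x (α - Pi.single i (p - 1) + Pi.single j (p - 1))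
            + (mon x α' - mon x γ) = mon x α - mon x γ := by rw [hα']; ring
        rwa [h3] at h2

/-- Monomials of the same degree whose exponents have the same reduction agree modulo
`I ^ (n + 1)`. -/
theorem mon_sub_mem {I : Ideal S} {x : ι → S} (hx : ∀ i, x i ∈ I) {p : ℕ}
    (hp2 : 2 ≤ p) (hrel : ∀ i j, x i ^ p * x j - x i * x j ^ p ∈ I ^ (p + 2))
    {n : ℕ} (hn : 1 ≤ n) {α β : ι → ℕ} (hα : ∑ i, α i = n) (hβ : ∑ i, β i = n)
    (h : ∀ i, red p (α i) = red p (β i)) : mon x α - mon x β ∈ I ^ (n + 1) := by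
  have hex : ∃ j, α j ≠ 0 := by
    by_contra hcon
    push Not at hcon
    simp [hcon] at hα
    omega
  obtain ⟨j, hj⟩ := hex
  have hj' : β j ≠ 0 := by
    intro h0
    apply hj
    rw [← red_eq_zero (p := p), h j, red_eq_zero]
    exact h0
  obtain ⟨γ, g1, g2, g3, g4⟩ := exists_normal hx hp2 hrel j _ α hα (by omega) rfl
  obtain ⟨γ', g1', g2', g3', g4'⟩ := exists_normal hx hp2 hrel j _ β hβ (by omega) rfl
  have hne : ∀ i, i ≠ j → γ i = γ' i := by
    intro i hi
    rw [← red_of_le (g2 i hi), ← red_of_le (g2' i hi), g3, g3', h]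
  have heq : γ = γ' := by
    funext i
    by_cases hi : i = j
    · subst hi
      have e1 := add_sum_erase (univ : Finset ι) γ (mem_univ i)
      have e2 := add_sum_erase (univ : Finset ι) γ' (mem_univ i)
      have e3 : ∑ l ∈ univ.erase i, γ l = ∑ l ∈ univ.erase i, γ' l :=
        sum_congr rfl fun l hl => hne l (mem_erase.1 hl).1
      omega
    · exact hne i hi
  rw [heq] at g4
  have h1 := Ideal.sub_mem _ g4 g4'
  have h2 : mon x α - mon x γ' - (mon x β - mon x γ') = mon x α - mon x β := by ring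
  rwa [h2] at h1

/-- **Elementary case.** -/
theorem mem_of_eval_elem {I : Ideal S} {x : ι → S} (hx : ∀ i, x i ∈ I) {p : ℕ}
    [hp : Fact p.Prime] (hpx : ∀ i, (p : S) * x i ∈ I ^ 2)
    (hrel : ∀ i j, x i ^ p * x j - x i * x j ^ p ∈ I ^ (p + 2))
    {n : ℕ} (hn : 1 ≤ n) (k : (ι → ℕ) → ℤ)
    (hev : ∀ c : ι → ZMod p,
      ∑ α ∈ piAntidiag (univ : Finset ι) n, (k α : ZMod p) * ∏ i, c i ^ α i = 0) :
    ∑ α ∈ piAntidiag (univ : Finset ι) n, (k α : S) * mon x α ∈ I ^ (n + 1) := by
  classical
  have hp2 : 2 ≤ p := hp.out.two_le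
  set T := piAntidiag (univ : Finset ι) n with hT
  set ρ : (ι → ℕ) → (ι → ℕ) := fun α i => red p (α i) with hρ
  set e : (ι → ℕ) ≃ (ι →₀ ℕ) := Finsupp.equivFunOnFinite.symm with he
  set R : MvPolynomial ι (ZMod p) :=
    ∑ α ∈ T, MvPolynomial.monomial (e (ρ α)) (k α : ZMod p) with hR
  have hR0 : R = 0 := by
    apply MvPolynomial.eq_zero_of_eval_eq_zero
    · intro c
      rw [hR, map_sum, ← hev c]
      refine sum_congr rfl fun α _ => ?_
      rw [MvPolynomial.eval_monomial]
      congr 1
      rw [Finsupp.prod_fintype _ _ (fun i => pow_zero _)]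
      refine prod_congr rfl fun i _ => ?_
      simp only [he, hρ, Finsupp.equivFunOnFinite_symm_apply_apply]
      exact pow_red _ _
    · rw [ZMod.card, hR]
      refine Submodule.sum_mem _ fun α _ => ?_
      rw [MvPolynomial.mem_restrictDegree]
      intro s hs i
      have hs' : s = e (ρ α) := by
        have := MvPolynomial.support_monomial_subset hs
        simpa using this
      rw [hs']
      simp only [he, hρ, Finsupp.equivFunOnFinite_symm_apply_apply]
      exact red_le hp2 _
  have hcoef : ∀ γ : ι → ℕ, (p : ℤ) ∣ ∑ α ∈ T with ρ α = γ, k α := by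
    intro γ
    rw [← ZMod.intCast_zmod_eq_zero_iff_dvd]
    have h1 := congrArg (MvPolynomial.coeff (e γ)) hR0
    rw [hR, MvPolynomial.coeff_sum, MvPolynomial.coeff_zero] at h1
    simp only [MvPolynomial.coeff_monomial, e.injective.eq_iff] at h1
    rw [← sum_filter] at h1
    push_cast
    exact h1
  rw [← sum_fiberwise_of_maps_to (t := T.image ρ) (fun α hα => mem_image_of_mem ρ hα)]
  refine Ideal.sum_mem _ fun γ hγ => ?_
  obtain ⟨α₀, hα₀, rfl⟩ := mem_image.1 hγ
  have hsplit : ∑ α ∈ T with ρ α = ρ α₀, (k α : S) * mon x α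
      = ∑ α ∈ T with ρ α = ρ α₀, (k α : S) * (mon x α - mon x α₀)
        + ((∑ α ∈ T with ρ α = ρ α₀, k α : ℤ) : S) * mon x α₀ := by
    push_cast
    rw [sum_mul, ← sum_add_distrib]
    refine sum_congr rfl fun α _ => ?_
    ring
  rw [hsplit]
  refine Ideal.add_mem _ (Ideal.sum_mem _ fun α hα => ?_) ?_
  · rw [mem_filter] at hα
    refine Ideal.mul_mem_left _ _ (mon_sub_mem hx hp2 hrel hn (mem_deg.1 hα.1) (mem_deg.1 hα₀)
      fun i => congrFun hα.2 i)
  · obtain ⟨m, hm⟩ := hcoef (ρ α₀)
    rw [hm]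
    have hex : ∃ j, α₀ j ≠ 0 := by
      by_contra hcon
      push Not at hcon
      have := mem_deg.1 hα₀
      simp [hcon] at this
      omega
    obtain ⟨j, hj⟩ := hex
    have h1 := mul_mon_mem hx (mem_deg.1 hα₀) hj (hpx j)
    have h2 : (((p : ℤ) * m : ℤ) : S) * mon x α₀ = (m : S) * ((p : S) * mon x α₀) := by
      push_cast
      ring
    rw [h2]
    exact Ideal.mul_mem_left _ _ h1

end Pool.Agent.H20.MR
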