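import Pool.Agent.H20.MR.Rel

/-!
Detection of powers of the augmentation ideal on cyclic quotients.
-/

set_option autoImplicit false
set_option linter.unusedSectionVars false

namespace Pool.Agent.H20.MR

open Finset

section pgroup

variable {P : Type} [CommGroup P] [Finite P] {p : ℕ} [hp : Fact p.Prime]

theorem one_add_del_pow {H : Type} [CommGroup H] {h : H} {m : ℕ} (hm : h ^ m = 1) :
    (1 + del h) ^ m = 1 := by
  rw [← of_eq, ← map_pow, hm, map_one]

theorem nat_mul_del_mem {H : Type} [CommGroup H] {h : H} {m : ℕ} (hm : h ^ m = 1) :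
    ((m : ℕ) : MonoidAlgebra ℤ H) * del h ∈ aug H ^ 2 := by
  have h1 := del_pow_sub h m
  rw [hm, del_one, zero_sub] at h1
  simpa using Submodule.neg_mem _ h1

/-- The evaluation hypothesis from characters. -/
theorem ev_of_char {ι : Type} [Fintype ι] [DecidableEq ι] {e : ι → ℕ}
    (φ : P ≃* ((i : ι) → Multiplicative (ZMod (p ^ e i)))) {n : ℕ} (hn : 1 ≤ n)
    {x : MonoidAlgebra ℤ P}
    (hx : ∀ (E : ℕ) (χ : P →* Multiplicative (ZMod (p ^ E))),
      mp χ x ∈ aug (Multiplicative (ZMod (p ^ E))) ^ (n + 1))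
    {k : (ι → ℕ) → ℤ}
    (hk : x - ∑ α ∈ piAntidiag (univ : Finset ι) n, (k α : MonoidAlgebra ℤ P)
      * mon (fun i => del (φ.symm (Pi.mulSingle i (Multiplicative.ofAdd 1)))) α
        ∈ aug P ^ (n + 1)) :
    Ev p n k e := by
  intro E c hc
  have : NeZero (p ^ E) := ⟨pow_ne_zero _ hp.out.ne_zero⟩
  have hci : ∀ i, (zmultiplesHom (ZMod (p ^ E)) (c i : ZMod (p ^ E))) ((p ^ e i : ℕ) : ℤ) = 0 := by
    intro i
    rw [zmultiplesHom_apply]
    have h1 : ((p ^ e i * c i : ℕ) : ZMod (p ^ E)) = 0 :=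
      (ZMod.natCast_eq_zero_iff _ _).2 (hc i)
    simpa using h1
  set ψ : (i : ι) → (ZMod (p ^ e i) →+ ZMod (p ^ E)) := fun i =>
    ZMod.lift (p ^ e i) ⟨zmultiplesHom (ZMod (p ^ E)) (c i : ZMod (p ^ E)), hci i⟩ with hψ
  have hψ1 : ∀ i, ψ i 1 = (c i : ZMod (p ^ E)) := by
    intro i
    have h1 := ZMod.lift_coe (p ^ e i)
      ⟨zmultiplesHom (ZMod (p ^ E)) (c i : ZMod (p ^ E)), hci i⟩ 1
    simpa [hψ] using h1
  set χ : P →* Multiplicative (ZMod (p ^ E)) := ∏ i,
    (AddMonoidHom.toMultiplicative (ψ i)).comp ((Pi.evalMonoidHom _ i).comp φ.toMonoidHom)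
    with hχ
  have hχh : ∀ i, χ (φ.symm (Pi.mulSingle i (Multiplicative.ofAdd 1)))
      = (Multiplicative.ofAdd (1 : ZMod (p ^ E))) ^ c i := by
    intro i
    rw [hχ, MonoidHom.finsetProd_apply, prod_eq_single_of_mem i (mem_univ i)]
    · simp only [MonoidHom.comp_apply, MulEquiv.toMonoidHom_eq_coe, MonoidHom.coe_coe,
        MulEquiv.apply_symm_apply, Pi.evalMonoidHom_apply, Pi.mulSingle_eq_same]
      change Multiplicative.ofAdd (ψ i 1) = _
      rw [hψ1, ← ofAdd_nsmul, nsmul_one]
    · intro j _ hj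
      simp only [MonoidHom.comp_apply, MulEquiv.toMonoidHom_eq_coe, MonoidHom.coe_coe,
        MulEquiv.apply_symm_apply, Pi.evalMonoidHom_apply, Pi.mulSingle_eq_of_ne hj]
      exact map_one _
  set g : Multiplicative (ZMod (p ^ E)) := Multiplicative.ofAdd (1 : ZMod (p ^ E)) with hg
  have hgen : ∀ y : Multiplicative (ZMod (p ^ E)), y ∈ Subgroup.zpowers g := by
    intro y
    rw [Subgroup.mem_zpowers_iff]
    refine ⟨((Multiplicative.toAdd y).val : ℤ), ?_⟩
    rw [zpow_natCast, hg, ← ofAdd_nsmul, nsmul_one, ZMod.natCast_zmod_val]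
    rfl
  have h1 := mp_mem χ hk
  rw [map_sub, map_sum] at h1
  have h2 : ∑ α ∈ piAntidiag (univ : Finset ι) n, mp χ ((k α : MonoidAlgebra ℤ P)
      * mon (fun i => del (φ.symm (Pi.mulSingle i (Multiplicative.ofAdd 1)))) α)
      ∈ aug (Multiplicative (ZMod (p ^ E))) ^ (n + 1) := by
    have := Ideal.sub_mem _ (hx E χ) h1
    simpa using this
  have h3 : ∑ α ∈ piAntidiag (univ : Finset ι) n,
      (mp χ ((k α : MonoidAlgebra ℤ P)
        * mon (fun i => del (φ.symm (Pi.mulSingle i (Multiplicative.ofAdd 1)))) α)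
        - ((k α * ∏ i, (c i : ℤ) ^ α i : ℤ) : MonoidAlgebra ℤ (Multiplicative (ZMod (p ^ E))))
          * del g ^ n) ∈ aug (Multiplicative (ZMod (p ^ E))) ^ (n + 1) := by
    refine Ideal.sum_mem _ fun α hα => ?_
    have hcg : ∀ i, Cg (aug (Multiplicative (ZMod (p ^ E)))) 1
        (del (g ^ c i)) ((c i : MonoidAlgebra ℤ (Multiplicative (ZMod (p ^ E)))) * del g) := by
      intro i
      refine ⟨by simpa using del_mem _, by simpa using Ideal.mul_mem_left _ _ (del_mem g), ?_⟩
      exact del_pow_sub g (c i)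
    have h4 := (Cg.mon hcg α).2.2
    rw [mem_deg.1 hα] at h4
    have h5 : mon (fun i => (c i : MonoidAlgebra ℤ (Multiplicative (ZMod (p ^ E)))) * del g) α
        = ((∏ i, (c i : ℤ) ^ α i : ℤ) : MonoidAlgebra ℤ (Multiplicative (ZMod (p ^ E))))
          * del g ^ n := by
      rw [mon]
      simp_rw [mul_pow]
      rw [prod_mul_distrib, prod_pow_eq_pow_sum, mem_deg.1 hα]
      push_cast
      rfl
    have h6 : mp χ ((k α : MonoidAlgebra ℤ P)
        * mon (fun i => del (φ.symm (Pi.mulSingle i (Multiplicative.ofAdd 1)))) α)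
        = (k α : MonoidAlgebra ℤ (Multiplicative (ZMod (p ^ E))))
          * mon (fun i => del (g ^ c i)) α := by
      rw [map_mul, map_intCast]
      congr 1
      rw [mon, mon, map_prod]
      refine prod_congr rfl fun i _ => ?_
      rw [map_pow, mp_del, hχh]
    rw [h6]
    have h7 := Ideal.mul_mem_left _
      (k α : MonoidAlgebra ℤ (Multiplicative (ZMod (p ^ E)))) h4
    rw [h5] at h7
    convert h7 using 1
    push_cast
    ring
  rw [sum_sub_distrib] at h3
  have h8 := Ideal.sub_mem _ h2 h3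
  rw [sub_sub_cancel, ← sum_mul] at h8
  have h9 : (Nat.card (Multiplicative (ZMod (p ^ E))) : ℤ)
      ∣ ∑ α ∈ piAntidiag (univ : Finset ι) n, k α * ∏ i, (c i : ℤ) ^ α i := by
    apply dvd_of_mem hgen hn
    rw [Int.cast_sum]
    exact h8
  have h10 : Nat.card (Multiplicative (ZMod (p ^ E))) = p ^ E := by
    rw [Nat.card_congr Multiplicative.toAdd, Nat.card_zmod]
  rw [h10] at h9
  exact_mod_cast h9

/-- One step of the detection theorem for `p`-groups. -/
theorem step_pgroup (hP : IsPGroup p P) {n : ℕ} (hn : 1 ≤ n)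
    (hcase : n ≤ p + 1 ∨ ∀ y : P, y ^ p = 1) {x : MonoidAlgebra ℤ P} (hxn : x ∈ aug P ^ n)
    (hx : ∀ (E : ℕ) (χ : P →* Multiplicative (ZMod (p ^ E))),
      mp χ x ∈ aug (Multiplicative (ZMod (p ^ E))) ^ (n + 1)) :
    x ∈ aug P ^ (n + 1) := by
  classical
  obtain ⟨ι, _, N, hN, ⟨φ⟩⟩ := CommGroup.equiv_prod_multiplicative_zmod_of_finite P
  obtain ⟨v, hv⟩ := (IsPGroup.iff_card).1 hP
  have hNe : ∀ i, ∃ e, N i = p ^ e := by
    intro i
    have : NeZero (N i) := ⟨by have := hN i; omega⟩
    have h1 : orderOf (φ.symm (Pi.mulSingle i (Multiplicative.ofAdd 1))) = N i := by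
      rw [MulEquiv.orderOf_eq, orderOf_piMulSingle, orderOf_ofAdd_eq_addOrderOf, ZMod.addOrderOf_one]
    have h2 := orderOf_dvd_natCard (φ.symm (Pi.mulSingle i (Multiplicative.ofAdd 1)))
    rw [h1, hv] at h2
    obtain ⟨e, -, he⟩ := (Nat.dvd_prime_pow hp.out).1 h2
    exact ⟨e, he⟩
  choose e he using hNe
  obtain rfl : N = fun i => p ^ e i := funext he
  replace hN : ∀ i, 1 < p ^ e i := hN
  have he1 : ∀ i, 1 ≤ e i := by
    intro i
    by_contra hcon
    have h0 : e i = 0 := by omega
    have := hN i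
    rw [h0] at this
    simp at this
  set h : ι → P := fun i => φ.symm (Pi.mulSingle i (Multiplicative.ofAdd 1)) with hh
  have hord : ∀ i, h i ^ (p ^ e i) = 1 := by
    intro i
    rw [hh]
    simp only
    rw [← map_pow, ← Pi.mulSingle_pow, ← ofAdd_nsmul, nsmul_one, ZMod.natCast_self, ofAdd_zero,
      Pi.mulSingle_one, map_one]
  have hcl : Subgroup.closure (Set.range h) = ⊤ := by
    rw [Subgroup.eq_top_iff']
    intro y
    have h1 : y = ∏ i, φ.symm (Pi.mulSingle i (φ y i)) := by
      rw [← map_prod, Finset.univ_prod_mulSingle, MulEquiv.symm_apply_apply]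
    rw [h1]
    refine Subgroup.prod_mem _ fun i _ => ?_
    have : NeZero (p ^ e i) := ⟨pow_ne_zero _ hp.out.ne_zero⟩
    have h2 : φ y i = (Multiplicative.ofAdd (1 : ZMod (p ^ e i)))
        ^ (Multiplicative.toAdd (φ y i)).val := by
      rw [← ofAdd_nsmul, nsmul_one, ZMod.natCast_zmod_val]
      rfl
    rw [h2, Pi.mulSingle_pow, map_pow]
    exact Subgroup.pow_mem _ (Subgroup.subset_closure (Set.mem_range_self (f := h) i)) _
  obtain ⟨k, hk⟩ := exists_form hcl n x hxn
  have hev : Ev p n k e := ev_of_char φ hn hx hk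
  have hXm : ∀ i, del (h i) ∈ aug P := fun i => del_mem _
  have hpx : ∀ i, (((p : ℤ) ^ e i : ℤ) : MonoidAlgebra ℤ P) * del (h i) ∈ aug P ^ 2 := by
    intro i
    have := nat_mul_del_mem (hord i)
    push_cast at this ⊢
    exact this
  have hmain : ∑ α ∈ piAntidiag (univ : Finset ι) n, (k α : MonoidAlgebra ℤ P)
      * mon (fun i => del (h i)) α ∈ aug P ^ (n + 1) := by
    rcases hcase with hsmall | helem
    · refine mem_of_eval_small hXm he1 hpx (fun i j hij => ?_) hn hsmall hev
      refine rel_pair (hXm i) (hXm j) (he1 i) (one_add_del_pow (hord i)) ?_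
        (nat_mul_del_mem (hord i))
      rw [hij]
      exact one_add_del_pow (hord j)
    · have he1' : ∀ i, e i = 1 := by
        intro i
        have : NeZero (p ^ e i) := ⟨pow_ne_zero _ hp.out.ne_zero⟩
        have h1 : orderOf (h i) = p ^ e i := by
          rw [hh]
          simp only
          rw [MulEquiv.orderOf_eq, orderOf_piMulSingle, orderOf_ofAdd_eq_addOrderOf, ZMod.addOrderOf_one]
        have h2 : p ^ e i ∣ p ^ 1 := by
          rw [← h1, pow_one]
          exact orderOf_dvd_of_pow_eq_one (helem _)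
        have h3 := (Nat.pow_dvd_pow_iff_le_right hp.out.one_lt).1 h2
        have := he1 i
        omega
      refine mem_of_eval_elem (p := p) hXm (fun i => ?_) (fun i j => ?_) hn k (fun c => ?_)
      · have := hpx i
        rw [he1' i] at this
        simpa using this
      · have hi := hord i
        have hj := hord j
        rw [he1' i] at hi
        rw [he1' j] at hj
        have := rel_pair (hXm i) (hXm j) le_rfl (one_add_del_pow hi) (one_add_del_pow hj)
          (nat_mul_del_mem hi)
        simpa using this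
      · have h1 := hev 1 (fun i => (c i).val) (by
          intro i
          rw [he1' i]
          exact Dvd.intro _ rfl)
        rw [pow_one, ← ZMod.intCast_zmod_eq_zero_iff_dvd] at h1
        push_cast at h1
        simpa using h1
  have := Ideal.add_mem _ hk hmain
  simpa using this

end pgroup

section adams

variable {H : Type} [CommGroup H]

theorem aug_induction {q : MonoidAlgebra ℤ H → Prop} (gen : ∀ h : H, q (del h)) (zero : q 0)
    (add : ∀ a b, q a → q b → q (a + b))
    (smul : ∀ z a, a ∈ aug H → q a → q (z * a)) : ∀ a ∈ aug H, q a := by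
  intro a ha
  have ha' : a ∈ Submodule.span (MonoidAlgebra ℤ H)
      (Set.range fun h : H => MonoidAlgebra.of ℤ H h - 1) := ha
  induction ha' using Submodule.span_induction with
  | mem x hx =>
    obtain ⟨h, rfl⟩ := hx
    exact gen h
  | zero => exact zero
  | add x y hx hy ihx ihy => exact add x y (ihx hx) (ihy hy)
  | smul z x hx ihx => exact smul z x hx (ihx hx)

/-- The `k`-th power map acts on `I ^ n / I ^ (n + 1)` as multiplication by `k ^ n`. -/
theorem adams (k n : ℕ) : ∀ x ∈ aug H ^ n,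
    mp (powMonoidHom k) x - ((k ^ n : ℕ) : MonoidAlgebra ℤ H) * x ∈ aug H ^ (n + 1) := by
  have hzero : ∀ z : MonoidAlgebra ℤ H, mp (powMonoidHom k : H →* H) z - z ∈ aug H := by
    intro z
    have h1 := mp_mem (powMonoidHom k : H →* H) (n := 1) (by simpa using sub_eps_mem z)
    have h2 := sub_eps_mem z
    rw [map_sub, map_intCast, pow_one] at h1
    have := Ideal.sub_mem _ h1 h2
    simpa using this
  have hone : ∀ a ∈ aug H, mp (powMonoidHom k) a - ((k : ℕ) : MonoidAlgebra ℤ H) * a
      ∈ aug H ^ 2 := by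
    refine aug_induction ?_ ?_ ?_ ?_
    · intro h
      rw [mp_del]
      exact del_pow_sub h k
    · simp
    · intro a b ha hb
      have := Ideal.add_mem _ ha hb
      convert this using 1
      rw [map_add]
      ring
    · intro z a ha' ha
      have e1 : mp (powMonoidHom k) (z * a) - ((k : ℕ) : MonoidAlgebra ℤ H) * (z * a)
          = mp (powMonoidHom k) z * (mp (powMonoidHom k) a
              - ((k : ℕ) : MonoidAlgebra ℤ H) * a)
            + (mp (powMonoidHom k) z - z) * (((k : ℕ) : MonoidAlgebra ℤ H) * a) := by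
        rw [map_mul]
        ring
      rw [e1]
      refine Ideal.add_mem _ (Ideal.mul_mem_left _ _ ha) ?_
      rw [pow_two]
      exact Ideal.mul_mem_mul (hzero z) (Ideal.mul_mem_left _ _ ha')
  induction n with
  | zero =>
    intro x _
    simpa using hzero x
  | succ n ih =>
    intro x hx
    rw [pow_succ] at hx
    refine Submodule.mul_induction_on hx ?_ ?_
    · intro a ha b hb
      have e1 : mp (powMonoidHom k) (a * b) - ((k ^ (n + 1) : ℕ) : MonoidAlgebra ℤ H) * (a * b)
          = (mp (powMonoidHom k) a - ((k ^ n : ℕ) : MonoidAlgebra ℤ H) * a)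
              * mp (powMonoidHom k) b
            + (((k ^ n : ℕ) : MonoidAlgebra ℤ H) * a)
              * (mp (powMonoidHom k) b - ((k : ℕ) : MonoidAlgebra ℤ H) * b) := by
        rw [map_mul]
        push_cast
        ring
      rw [e1]
      refine Ideal.add_mem _ ?_ ?_
      · rw [pow_succ (aug H) (n + 1)]
        refine Ideal.mul_mem_mul (ih a ha) ?_
        have := mp_mem (powMonoidHom k : H →* H) (n := 1) (by simpa using hb)
        simpa using this
      · have := Ideal.mul_mem_mul (Ideal.mul_mem_left _ ((k ^ n : ℕ) : MonoidAlgebra ℤ H) ha)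
          (hone b hb)
        rw [← pow_add] at this
        exact this
    · intro a b ha hb
      have := Ideal.add_mem _ ha hb
      convert this using 1
      rw [map_add]
      ring

end adams

/-- The condition on the order and on the Sylow subgroups of `H`. -/
def Good (H : Type) [CommGroup H] (d : ℕ) : Prop :=
  ∀ p : ℕ, p.Prime → p ∣ Nat.card H →
    d ≤ p + 1 ∨ (∀ P : Sylow p H, IsCyclic P) ∨ ¬ p ^ 2 ∣ Monoid.exponent H

/-- One step of the detection theorem. -/
theorem step {H : Type} [CommGroup H] [Finite H] {n : ℕ} (hn : 1 ≤ n) (hg : Good H n)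
    {x : MonoidAlgebra ℤ H} (hxn : x ∈ aug H ^ n)
    (hx : ∀ (C : Type) [CommGroup C] [Finite C] [IsCyclic C] (χ : H →* C),
      (∃ p k : ℕ, p.Prime ∧ Nat.card C = p ^ k) → mp χ x ∈ aug C ^ (n + 1)) :
    x ∈ aug H ^ (n + 1) := by
  classical
  set N := Nat.card H with hN
  have hNpos : 0 < N := Nat.card_pos
  -- the ideal of integers multiplying `x` into `I ^ (n + 1)`
  set J : Ideal ℤ := Ideal.comap (Int.castRingHom (MonoidAlgebra ℤ H))
    (Submodule.colon (aug H ^ (n + 1)) {x}) with hJ
  have hJmem : ∀ m : ℤ, m ∈ J ↔ (m : MonoidAlgebra ℤ H) * x ∈ aug H ^ (n + 1) := by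
    intro m
    rw [hJ, Ideal.mem_comap, Submodule.mem_colon_singleton]
    rfl
  suffices h1 : (1 : ℤ) ∈ J by
    rw [hJmem] at h1
    simpa using h1
  obtain ⟨a, ha⟩ := (IsPrincipalIdealRing.principal J).principal
  have haJ : ∀ m : ℤ, m ∈ J ↔ a ∣ m := by
    intro m
    rw [ha]
    exact Ideal.mem_span_singleton
  have hNJ : (N : ℤ) ∈ J := by
    rw [hJmem]
    obtain ⟨n, rfl⟩ : ∃ n', n = n' + 1 := ⟨n - 1, by omega⟩
    have h2 : ∀ b ∈ aug H, ((N : ℕ) : MonoidAlgebra ℤ H) * b ∈ aug H ^ 2 := by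
      refine aug_induction ?_ ?_ ?_ ?_
      · intro h
        exact nat_mul_del_mem (h := h) (pow_card_eq_one')
      · simp
      · intro b c hb hc
        rw [mul_add]
        exact Ideal.add_mem _ hb hc
      · intro z b _ hb
        rw [mul_left_comm]
        exact Ideal.mul_mem_left _ _ hb
    rw [pow_succ'] at hxn
    refine Submodule.mul_induction_on hxn ?_ ?_
    · intro b hb c hc
      have := Ideal.mul_mem_mul (h2 b hb) hc
      rw [← pow_add] at this
      have e1 : 2 + n = n + 1 + 1 := by ring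
      rw [e1] at this
      convert this using 1
      push_cast
      ring
    · intro b c hb hc
      rw [mul_add]
      exact Ideal.add_mem _ hb hc
  rw [haJ]
  by_contra hna
  have hau : ¬ IsUnit a := by
    intro h
    exact hna (h.dvd)
  have hane : a.natAbs ≠ 1 := by
    intro h
    exact hau (Int.isUnit_iff_natAbs_eq.2 h)
  obtain ⟨p, hp, hpa⟩ := Nat.exists_prime_and_dvd hane
  have : Fact p.Prime := ⟨hp⟩
  have hpa' : (p : ℤ) ∣ a := Int.natCast_dvd.2 hpa
  have hpN : p ∣ N := by
    have : (p : ℤ) ∣ (N : ℤ) := hpa'.trans ((haJ _).1 hNJ)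
    exact_mod_cast this
  set m := ordCompl[p] N with hm
  have hNm : ordProj[p] N * m = N := Nat.ordProj_mul_ordCompl_eq_self N p
  have hpm : ¬ p ∣ m := Nat.not_dvd_ordCompl hp hNpos.ne'
  -- it suffices to multiply `x` by `m ^ n`
  suffices hgoal : ((m ^ n : ℕ) : ℤ) ∈ J by
    rw [haJ] at hgoal
    have h3 : (p : ℤ) ∣ ((m ^ n : ℕ) : ℤ) := hpa'.trans hgoal
    have h4 : p ∣ m ^ n := by exact_mod_cast h3
    exact hpm (hp.dvd_of_dvd_pow h4)
  rw [hJmem]
  set ψ : H →* H := powMonoidHom m with hψ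
  set Q : Subgroup H := ψ.range with hQ
  have hQp : IsPGroup p Q := by
    rintro ⟨_, ⟨h, rfl⟩⟩
    refine ⟨N.factorization p, ?_⟩
    apply Subtype.ext
    simp only [Subgroup.coe_pow, Subgroup.coe_one, hψ, powMonoidHom_apply]
    rw [← pow_mul, mul_comm, hNm]
    exact pow_card_eq_one'
  set y : MonoidAlgebra ℤ Q := mp ψ.rangeRestrict x with hy
  have hyn : y ∈ aug Q ^ n := mp_mem _ hxn
  have hyx : ∀ (E : ℕ) (χ : Q →* Multiplicative (ZMod (p ^ E))),
      mp χ y ∈ aug (Multiplicative (ZMod (p ^ E))) ^ (n + 1) := by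
    intro E χ
    have : NeZero (p ^ E) := ⟨pow_ne_zero _ hp.ne_zero⟩
    rw [hy, ← mp_comp]
    refine hx _ _ ⟨p, E, hp, ?_⟩
    rw [Nat.card_congr Multiplicative.toAdd, Nat.card_zmod]
  have hyy : y ∈ aug Q ^ (n + 1) := by
    rcases hg p hp hpN with h | h | h
    · exact step_pgroup hQp hn (Or.inl h) hyn hyx
    · obtain ⟨P, hP⟩ := hQp.exists_le_sylow
      have := h P
      have : IsCyclic Q := isCyclic_of_injective (Subgroup.inclusion hP)
        (Subgroup.inclusion_injective hP)
      obtain ⟨k, hk⟩ := (IsPGroup.iff_card).1 hQp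
      exact hx Q _ ⟨p, k, hp, hk⟩
    · refine step_pgroup hQp hn (Or.inr fun z => ?_) hyn hyx
      obtain ⟨j, hj⟩ := (IsPGroup.iff_orderOf.1 hQp) z
      have h5 : orderOf z ∣ Monoid.exponent H := by
        rw [← Subgroup.orderOf_coe z]
        exact Monoid.order_dvd_exponent _
      rw [hj] at h5
      have hj1 : j ≤ 1 := by
        by_contra hcon
        exact h ((pow_dvd_pow p (by omega : 2 ≤ j)).trans h5)
      rw [← orderOf_dvd_iff_pow_eq_one, hj]
      calc p ^ j ∣ p ^ 1 := pow_dvd_pow p hj1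
        _ = p := pow_one p
  have h6 : mp ψ x ∈ aug H ^ (n + 1) := by
    have h7 := mp_mem Q.subtype hyy
    rw [hy, ← mp_comp] at h7
    exact h7
  have h8 := adams m n x hxn
  have := Ideal.sub_mem _ h6 h8
  rw [hψ, sub_sub_cancel] at this
  simpa using this

theorem eps_mp {H C : Type} [CommGroup H] [CommGroup C] (f : H →* C) (z : MonoidAlgebra ℤ H) :
    eps (mp f z) = eps z := by
  induction z using MonoidAlgebra.induction_on with
  | of h => rw [mp_of, eps_of, eps_of]
  | add a b iha ihb => rw [map_add, map_add, map_add, iha, ihb]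
  | smul r a iha =>
    rw [zsmul_eq_mul, map_mul, map_intCast, map_mul, map_mul, iha]
    simp

/-- **Detection theorem.** If `H` is good for `d`, an element of `ℤ[H]` lies in `I ^ (d + 1)` as
soon as its image in `ℤ[H / J]` lies in the corresponding power of the augmentation ideal for
every `J` with `H / J` cyclic of prime power order. -/
theorem detection {H : Type} [CommGroup H] [Finite H] {d : ℕ} (hg : Good H d)
    {x : MonoidAlgebra ℤ H}
    (hx : ∀ J : Subgroup H, IsCyclic (H ⧸ J) → (∃ p k : ℕ, p.Prime ∧ Nat.card (H ⧸ J) = p ^ k) →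
      mp (QuotientGroup.mk' J) x ∈ aug (H ⧸ J) ^ (d + 1)) :
    x ∈ aug H ^ (d + 1) := by
  have hχ : ∀ (C : Type) [CommGroup C] [Finite C] [IsCyclic C] (χ : H →* C),
      (∃ p k : ℕ, p.Prime ∧ Nat.card C = p ^ k) → mp χ x ∈ aug C ^ (d + 1) := by
    intro C _ _ _ χ hC
    have h1 : χ = (QuotientGroup.kerLift χ).comp (QuotientGroup.mk' χ.ker) := by
      ext h
      simp
    have hcyc : IsCyclic (H ⧸ χ.ker) :=
      isCyclic_of_injective (QuotientGroup.kerLift χ) (QuotientGroup.kerLift_injective χ)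
    have hcard : ∃ p k : ℕ, p.Prime ∧ Nat.card (H ⧸ χ.ker) = p ^ k := by
      obtain ⟨p, k, hp, hk⟩ := hC
      have h2 : Nat.card (H ⧸ χ.ker) ∣ p ^ k := by
        rw [← hk]
        exact Subgroup.card_dvd_of_injective (QuotientGroup.kerLift χ)
          (QuotientGroup.kerLift_injective χ)
      obtain ⟨j, -, hj⟩ := (Nat.dvd_prime_pow hp).1 h2
      exact ⟨p, j, hp, hj⟩
    rw [h1, mp_comp]
    exact mp_mem _ (hx _ hcyc hcard)
  have key : ∀ m, m ≤ d → x ∈ aug H ^ (m + 1) := by
    intro m
    induction m with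
    | zero =>
      intro _
      have h1 := hx ⊤ (by
        have : Subsingleton (H ⧸ (⊤ : Subgroup H)) := QuotientGroup.subsingleton_quotient_top
        infer_instance) ⟨2, 0, Nat.prime_two, by
          have : Subsingleton (H ⧸ (⊤ : Subgroup H)) := QuotientGroup.subsingleton_quotient_top
          rw [pow_zero, Nat.card_unique]⟩
      have h2 : mp (QuotientGroup.mk' (⊤ : Subgroup H)) x ∈ aug (H ⧸ (⊤ : Subgroup H)) :=
        Ideal.pow_le_self (by omega) h1
      have h3 : eps (mp (QuotientGroup.mk' (⊤ : Subgroup H)) x) = eps x := eps_mp _ _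
      have h4 : eps x = 0 := by rw [← h3]; exact eps_of_mem h2
      have h5 := sub_eps_mem x
      rw [h4] at h5
      simpa using h5
    | succ m ih =>
      intro hmd
      refine step (by omega) (fun p hp hpd => ?_) (ih (by omega)) ?_
      · rcases hg p hp hpd with h | h | h
        · exact Or.inl (by omega)
        · exact Or.inr (Or.inl h)
        · exact Or.inr (Or.inr h)
      · intro C _ _ _ χ hC
        exact Ideal.pow_le_pow_right (by omega) (hχ C χ hC)
  exact key d le_rfl

end Pool.Agent.H20.MR
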