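import Pool.Agent.H20.MR.Stark

/-!
Reduction of the Mazur-Rubin formula to cyclic extensions of prime power degree.
-/

set_option autoImplicit false
set_option linter.unusedSectionVars false

namespace Pool.Agent.H20.MR

open scoped TensorProduct

section maps

variable {A B : Type} [CommGroup A] [CommGroup B]

/-- The projection onto the quotient. -/
noncomputable def qmk (d : ℕ) (z : MonoidAlgebra ℤ A) : AugQuo A d :=
  Ideal.Quotient.mk ((aug A) ^ (d + 1)) z

/-- The additive map induced by a group homomorphism. -/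
noncomputable def qmap (d : ℕ) (f : A →* B) : AugQuo A d →+ AugQuo B d :=
  (Ideal.quotientMap ((aug B) ^ (d + 1)) (mp f)
    (fun _ hx => mp_mem f hx) :
      (MonoidAlgebra ℤ A ⧸ (aug A) ^ (d + 1)) →+*
        (MonoidAlgebra ℤ B ⧸ (aug B) ^ (d + 1))).toAddMonoidHom

/-- The same as a `ℤ`-linear map. -/
noncomputable def qmapZ (d : ℕ) (f : A →* B) : AugQuo A d →ₗ[ℤ] AugQuo B d :=
  (qmap d f).toIntLinearMap

theorem map_mk (d : ℕ) (f : A →* B) (z : MonoidAlgebra ℤ A) :
    qmapZ d f (qmk d z) = qmk d (mp f z) := rfl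

theorem map_cls (d : ℕ) (f : A →* B) (a : A) : qmapZ d f (cls d a) = cls d (f a) := by
  have h : cls d a = qmk d (MonoidAlgebra.of ℤ A a) := rfl
  rw [h, map_mk, mp_of]
  rfl

theorem mk_surj (d : ℕ) : Function.Surjective (qmk (A := A) d) := Ideal.Quotient.mk_surjective

theorem mk_eq_zero {d : ℕ} {z : MonoidAlgebra ℤ A} :
    qmk d z = 0 ↔ z ∈ aug A ^ (d + 1) :=
  Ideal.Quotient.eq_zero_iff_mem (I := (aug A) ^ (d + 1))

end maps

variable {G : Type} [CommGroup G] [Finite G] {H : Subgroup G} {U : Type} [AddCommGroup U]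
  [Module (ZG G) U]

/-- The value of an element of the Rubin lattice. -/
noncomputable def ev {r : ℕ} {J : Subgroup H} (a : Rub H U r J) (φ : Fin r → Hm H U J) : ZG G :=
  ((show Hm H U J [⋀^Fin r]→ₗ[ZG G] fixedBy H (ZG G) J from a) φ : ZG G)

instance rub_torsionFree (r : ℕ) (J : Subgroup H) :
    Module.IsTorsionFree ℤ (Rub H U r J) where
  isSMulRegular m hm := by
    intro a b hab
    refine AlternatingMap.ext fun φ => Subtype.ext ?_
    have h1 : m • ev a φ = m • ev b φ := congrArg (fun c : Rub H U r J => ev c φ) hab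
    exact (Module.IsTorsionFree.isSMulRegular hm) h1

/-- The transition map from the bottom quotient to the quotient by `J`. -/
noncomputable def trans (d : ℕ) (J : Subgroup H) :
    AugQuo (H ⧸ (⊥ : Subgroup H)) d →ₗ[ℤ] AugQuo (H ⧸ J) d :=
  qmapZ d (QuotientGroup.map (⊥ : Subgroup H) J (MonoidHom.id H) (by simp))

theorem trans_cls (d : ℕ) (J : Subgroup H) (σ : H) :
    trans d J (cls d (QuotientGroup.mk σ)) = cls d (QuotientGroup.mk σ) := by
  rw [trans, map_cls]
  rfl

/-- The relevant subgroups: those with cyclic quotient of prime power order. -/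
def Cyc (J : Subgroup H) : Prop :=
  IsCyclic (H ⧸ J) ∧ ∃ p k : ℕ, p.Prime ∧ Nat.card (H ⧸ J) = p ^ k

theorem trans_injective {d : ℕ} (hg : Good H d) {z : AugQuo (H ⧸ (⊥ : Subgroup H)) d}
    (hz : ∀ J : Subgroup H, Cyc J → trans d J z = 0) : z = 0 := by
  obtain ⟨z, rfl⟩ := mk_surj d z
  set x : MonoidAlgebra ℤ H := mp (QuotientGroup.quotientBot (G := H)).toMonoidHom z with hx
  have hxz : mp (QuotientGroup.mk' (⊥ : Subgroup H)) x = z := by
    rw [hx, ← mp_comp]
    have : (QuotientGroup.mk' (⊥ : Subgroup H)).comp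
        (QuotientGroup.quotientBot (G := H)).toMonoidHom = MonoidHom.id _ := by
      ext q
      rfl
    rw [this, mp, MonoidAlgebra.mapDomainRingHom_id]
    rfl
  have h1 : x ∈ aug H ^ (d + 1) := by
    apply detection hg
    intro J hJ1 hJ2
    have h2 := hz J ⟨hJ1, hJ2⟩
    rw [trans, map_mk, mk_eq_zero, ← hxz, ← mp_comp] at h2
    exact h2
  rw [mk_eq_zero, ← hxz]
  exact mp_mem _ h1

theorem tensor_ext {d : ℕ} (hg : Good H d) {M : Type} [AddCommGroup M]
    [Module.IsTorsionFree ℤ M] {y y' : M ⊗[ℤ] AugQuo (H ⧸ (⊥ : Subgroup H)) d}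
    (hy : ∀ J : Subgroup H, Cyc J → (trans d J).lTensor M y = (trans d J).lTensor M y') :
    y = y' := by
  classical
  cases nonempty_fintype {J : Subgroup H // Cyc J}
  set P : AugQuo (H ⧸ (⊥ : Subgroup H)) d →ₗ[ℤ]
      (∀ J : {J : Subgroup H // Cyc J}, AugQuo (H ⧸ J.1) d) :=
    LinearMap.pi fun J => trans d J.1 with hP
  have hinj : Function.Injective P := by
    rw [injective_iff_map_eq_zero]
    intro z hz
    apply trans_injective hg
    intro J hJ
    exact congrFun hz ⟨J, hJ⟩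
  have h1 := Module.Flat.lTensor_preserves_injective_linearMap (M := M) P hinj
  apply h1
  apply (TensorProduct.piRight ℤ ℤ M
    (fun J : {J : Subgroup H // Cyc J} => AugQuo (H ⧸ J.1) d)).injective
  funext J
  have h3 : ∀ w : M ⊗[ℤ] AugQuo (H ⧸ (⊥ : Subgroup H)) d,
      (TensorProduct.piRight ℤ ℤ M (fun J : {J : Subgroup H // Cyc J} => AugQuo (H ⧸ J.1) d))
        (P.lTensor M w) J = (trans d J.1).lTensor M w := by
    intro w
    induction w using TensorProduct.induction_on with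
    | zero => simp
    | tmul m a =>
      rw [LinearMap.lTensor_tmul, TensorProduct.piRight_apply, TensorProduct.piRightHom_tmul,
        LinearMap.lTensor_tmul]
      rfl
    | add a b ha hb =>
      rw [map_add, map_add, Pi.add_apply, ha, hb, map_add]
  rw [h3, h3, hy J.1 J.2]

theorem trans_tens (d : ℕ) {r : ℕ} (J : Subgroup H) (a : Rub H U r (⊥ : Subgroup H)) (σ : H) :
    (trans d J).lTensor _ (tens U d a (QuotientGroup.mk σ))
      = a ⊗ₜ[ℤ] cls d (QuotientGroup.mk (s := J) σ) := by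
  rw [tens, LinearMap.lTensor_tmul, trans_cls]

/-- Evaluation of the image of `𝒩(ε K)` for the quotient by `J`. -/
theorem trans_normSum (d : ℕ) {r : ℕ} (J : Subgroup H) (a : Rub H U r (⊥ : Subgroup H)) :
    (trans d J).lTensor _ (normSum U d a)
      = ∑ᶠ σ : H, (el (σ : G) • a) ⊗ₜ[ℤ] cls d (QuotientGroup.mk (s := J) σ⁻¹) := by
  classical
  cases nonempty_fintype H
  cases nonempty_fintype (H ⧸ (⊥ : Subgroup H))
  rw [normSum, finsum_eq_sum_of_fintype, finsum_eq_sum_of_fintype, map_sum]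
  symm
  refine Fintype.sum_equiv (QuotientGroup.quotientBot (G := H)).symm.toEquiv _ _ fun σ => ?_
  have h1 : ((QuotientGroup.quotientBot (G := H)).symm.toEquiv σ : H ⧸ (⊥ : Subgroup H))
      = QuotientGroup.mk σ := rfl
  have h2 : (Quotient.out (QuotientGroup.mk σ : H ⧸ (⊥ : Subgroup H)) : H) = σ := by
    obtain ⟨⟨τ, hτ⟩, h⟩ := QuotientGroup.mk_out_eq_mul (⊥ : Subgroup H) σ
    rw [Subgroup.mem_bot] at hτ
    rw [h]
    simp [hτ]
  rw [h1, h2, ← QuotientGroup.mk_inv, trans_tens]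

/-- `ν` as a `ℤ`-linear map. -/
noncomputable def nuZ {r : ℕ} {J J' : Subgroup H} (h : J ≤ J') :
    Rub H U r J' →ₗ[ℤ] Rub H U r J :=
  ({ toFun := nu H U h
     map_zero' := rfl
     map_add' := fun _ _ => rfl } : Rub H U r J' →+ Rub H U r J).toIntLinearMap

theorem nuZ_apply {r : ℕ} {J J' : Subgroup H} (h : J ≤ J') (a : Rub H U r J') :
    nuZ h a = nu H U h a := rfl

theorem nu_smul {r : ℕ} {J J' : Subgroup H} (h : J ≤ J') (z : ZG G) (a : Rub H U r J') :
    nu H U h (z • a) = z • nu H U h a := rfl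

theorem nu_nu {r : ℕ} {J J' J'' : Subgroup H} (h : J ≤ J') (h' : J' ≤ J'')
    (a : Rub H U r J'') : nu H U h (nu H U h' a) = nu H U (h.trans h') a := rfl

theorem el_mul {A : Type} [CommGroup A] (a b : A) : el (a * b) = el a * el b :=
  map_mul (MonoidAlgebra.of ℤ A) a b

theorem nu_summand (d : ℕ) {r : ℕ} (J : Subgroup H) (a : Rub H U r J)
    (b : Rub H U r (⊥ : Subgroup H)) [Fintype J]
    (hab : nu H U bot_le a = ∑ τ : J, el ((τ : H) : G) • b) (q : H ⧸ J) :
    (nuZ (bot_le : ⊥ ≤ J)).rTensor (AugQuo (H ⧸ J) d)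
      (tens U d (el ((Quotient.out q : H) : G) • a) q⁻¹)
      = ∑ τ : J, (el (((Quotient.out q : H) * (τ : H) : H) : G) • b)
          ⊗ₜ[ℤ] cls d (QuotientGroup.mk (s := J) ((Quotient.out q : H) * (τ : H))⁻¹) := by
  rw [tens, LinearMap.rTensor_tmul, nuZ_apply, nu_smul, hab, Finset.smul_sum,
    TensorProduct.sum_tmul]
  refine Finset.sum_congr rfl fun τ _ => ?_
  have h2 : (QuotientGroup.mk (s := J) ((Quotient.out q : H) * (τ : H))⁻¹ : H ⧸ J) = q⁻¹ := by
    rw [QuotientGroup.mk_inv]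
    congr 1
    rw [QuotientGroup.mk_mul_of_mem _ τ.2]
    exact QuotientGroup.out_eq' q
  rw [h2, smul_smul, ← el_mul]
  rfl

theorem bij_out (J : Subgroup H) : Function.Bijective
    (fun x : (H ⧸ J) × J => (Quotient.out x.1 : H) * (x.2 : H)) := by
  constructor
  · rintro ⟨q, τ⟩ ⟨q', τ'⟩ h
    simp only at h
    have hq : q = q' := by
      have := congrArg (QuotientGroup.mk (s := J)) h
      rw [QuotientGroup.mk_mul_of_mem _ τ.2, QuotientGroup.mk_mul_of_mem _ τ'.2] at this
      have e1 : (QuotientGroup.mk (Quotient.out q : H) : H ⧸ J) = q := QuotientGroup.out_eq' q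
      have e2 : (QuotientGroup.mk (Quotient.out q' : H) : H ⧸ J) = q' :=
        QuotientGroup.out_eq' q'
      rw [e1, e2] at this
      exact this
    subst hq
    rw [mul_right_inj] at h
    rw [Subtype.ext h]
  · intro σ
    refine ⟨(QuotientGroup.mk σ, ⟨(Quotient.out (QuotientGroup.mk σ : H ⧸ J) : H)⁻¹ * σ, ?_⟩),
      ?_⟩
    · rw [← QuotientGroup.eq]
      exact QuotientGroup.out_eq' _
    · simp

/-- Evaluation of the image of `𝒩(ε (K^J))` in the Rubin lattice of `K`. -/
theorem nu_normSum (d : ℕ) {r : ℕ} (J : Subgroup H) (a : Rub H U r J)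
    (b : Rub H U r (⊥ : Subgroup H))
    (hab : nu H U bot_le a = ∑ᶠ τ : J, el ((τ : H) : G) • b) :
    (nuZ (bot_le : ⊥ ≤ J)).rTensor (AugQuo (H ⧸ J) d) (normSum U d a)
      = ∑ᶠ σ : H, (el (σ : G) • b) ⊗ₜ[ℤ] cls d (QuotientGroup.mk (s := J) σ⁻¹) := by
  classical
  cases nonempty_fintype H
  cases nonempty_fintype (H ⧸ J)
  cases nonempty_fintype J
  rw [finsum_eq_sum_of_fintype] at hab
  rw [normSum, finsum_eq_sum_of_fintype, finsum_eq_sum_of_fintype, map_sum,
    Finset.sum_congr rfl fun q _ => nu_summand d J a b hab q, ← Fintype.sum_prod_type']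
  exact (bij_out J).sum_comp (fun σ : H => (el (σ : G) • b) ⊗ₜ[ℤ]
          cls d (QuotientGroup.mk (s := J) σ⁻¹))

/-- **Reduction to cyclic extensions of prime power degree.** -/
theorem reduction (d : ℕ) {r : ℕ} (hg : Good H d) (ε : ∀ J : Subgroup H, Rub H U r J)
    (hε : NormRelation U ε) (e : H → Rub H U r (⊤ : Subgroup H))
    (hcyc : ∀ J : Subgroup H, IsCyclic (H ⧸ J) →
      (∃ p k : ℕ, p.Prime ∧ Nat.card (H ⧸ J) = p ^ k) → MRFormula U d ε e J) :
    MRFormula U d ε e ⊥ := by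
  classical
  cases nonempty_fintype H
  rw [MRFormula]
  apply tensor_ext hg
  rintro J ⟨hJ1, hJ2⟩
  have h1 := hcyc J hJ1 hJ2
  rw [MRFormula, finsum_eq_sum_of_fintype] at h1
  rw [trans_normSum, ← nu_normSum d J (ε J) (ε ⊥) (hε J), h1, finsum_eq_sum_of_fintype,
    map_sum, map_sum]
  refine Finset.sum_congr rfl fun h _ => ?_
  rw [trans_tens, tens, LinearMap.rTensor_tmul, nuZ_apply, nu_nu]

end Pool.Agent.H20.MR
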