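import Pool.Agent.H20.MR.Aug

/-!
Relations in the graded ring of an augmentation filtration coming from `(1 + x) ^ (p ^ e) = 1`.
-/

set_option autoImplicit false
set_option linter.unusedSectionVars false

namespace Pool.Agent.H20.MR

open Finset

section relation

variable {S : Type} [CommRing S] {I : Ideal S} {p : ℕ} [hp : Fact p.Prime]

theorem pow_dvd_choose {e m : ℕ} (hm1 : 1 ≤ m) (hmp : m < p) : p ^ e ∣ (p ^ e).choose m := by
  obtain ⟨m, rfl⟩ : ∃ m', m = m' + 1 := ⟨m - 1, by omega⟩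
  have hpos : 0 < p ^ e := pow_pos hp.out.pos _
  obtain ⟨N, hN⟩ : ∃ N, p ^ e = N + 1 := ⟨p ^ e - 1, by omega⟩
  have h1 := Nat.add_one_mul_choose_eq N m
  rw [← hN] at h1
  have h2 : p ^ e ∣ (p ^ e).choose (m + 1) * (m + 1) := ⟨_, h1.symm⟩
  refine Nat.Coprime.dvd_of_dvd_mul_right ?_ h2
  apply Nat.Coprime.pow_left
  rw [Nat.Prime.coprime_iff_not_dvd hp.out]
  exact Nat.not_dvd_of_pos_of_lt (by omega) hmp

theorem choose_p {e : ℕ} (he : 1 ≤ e) :
    ∃ c : ℕ, (p ^ e).choose p = p ^ (e - 1) * c ∧ ¬ p ∣ c := by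
  have hle : p ≤ p ^ e := by
    calc p = p ^ 1 := (pow_one p).symm
      _ ≤ p ^ e := Nat.pow_le_pow_right hp.out.pos he
  have h1 := Nat.factorization_choose_prime_pow hp.out hle hp.out.ne_zero
  rw [hp.out.factorization_self] at h1
  refine ⟨(p ^ e).choose p / p ^ ((p ^ e).choose p).factorization p, ?_, ?_⟩
  · conv_lhs => rw [← Nat.ordProj_mul_ordCompl_eq_self ((p ^ e).choose p) p]
    rw [h1]
  · exact Nat.not_dvd_ordCompl hp.out (Nat.choose_pos hle).ne'

/-- `p ^ e x + C(p ^ e, p) x ^ p ∈ I ^ (p + 1)`. -/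
theorem rel_single {x : S} (hx : x ∈ I) {e : ℕ} (he : 1 ≤ e) (h1 : (1 + x) ^ (p ^ e) = 1) :
    ((p ^ e : ℕ) : S) * x + (((p ^ e).choose p : ℕ) : S) * x ^ p ∈ I ^ (p + 1) := by
  set N := p ^ e with hN
  have hp2 := hp.out.two_le
  have hle : p ≤ N := by
    calc p = p ^ 1 := (pow_one p).symm
      _ ≤ p ^ e := Nat.pow_le_pow_right hp.out.pos he
  have hexp : (1 + x) ^ N = ∑ m ∈ range (N + 1), x ^ m * ((N.choose m : ℕ) : S) := by
    rw [add_comm, add_pow]
    simp
  have hsplit : ∑ m ∈ range (N + 1), x ^ m * ((N.choose m : ℕ) : S)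
      = 1 + (N : S) * x + ∑ m ∈ Ico 2 p, x ^ m * ((N.choose m : ℕ) : S)
        + ((N.choose p : ℕ) : S) * x ^ p
        + ∑ m ∈ Ico (p + 1) (N + 1), x ^ m * ((N.choose m : ℕ) : S) := by
    rw [range_eq_Ico, ← sum_Ico_consecutive _ (Nat.zero_le (p + 1)) (by omega : p + 1 ≤ N + 1),
      sum_Ico_succ_top (Nat.zero_le p), ← sum_Ico_consecutive _ (Nat.zero_le 2) hp2]
    congr 1
    have h2 : ∑ m ∈ Ico 0 2, x ^ m * ((N.choose m : ℕ) : S) = 1 + (N : S) * x := by
      rw [← range_eq_Ico, sum_range_succ, sum_range_one]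
      simp
      ring
    rw [h2]
    ring
  rw [hexp, hsplit] at h1
  set R := ∑ m ∈ Ico (p + 1) (N + 1), x ^ m * ((N.choose m : ℕ) : S) with hR
  have hRm : R ∈ I ^ (p + 1) := by
    refine Ideal.sum_mem _ fun m hm => Ideal.mul_mem_right _ _ ?_
    exact Ideal.pow_le_pow_right (mem_Ico.1 hm).1 (Ideal.pow_mem_pow hx m)
  have hq : ∀ m ∈ Ico 2 p, x ^ m * ((N.choose m : ℕ) : S)
      = ((N.choose m / N : ℕ) : S) * (((N : S) * x) * x ^ (m - 1)) := by
    intro m hm
    rw [mem_Ico] at hm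
    have h3 : N.choose m = N * (N.choose m / N) :=
      (Nat.mul_div_cancel' (pow_dvd_choose (by omega) hm.2)).symm
    have h4 : x ^ m = x * x ^ (m - 1) := by
      rw [← pow_succ']
      congr 1
      omega
    conv_lhs => rw [h3, h4]
    push_cast
    ring
  rw [sum_congr rfl hq] at h1
  have hmid : ∀ j, (N : S) * x ∈ I ^ j →
      ∑ m ∈ Ico 2 p, ((N.choose m / N : ℕ) : S) * (((N : S) * x) * x ^ (m - 1)) ∈ I ^ (j + 1) := by
    intro j hj
    refine Ideal.sum_mem _ fun m hm => Ideal.mul_mem_left _ _ ?_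
    rw [mem_Ico] at hm
    have h5 := Ideal.mul_mem_mul hj (Ideal.pow_mem_pow hx (m - 1))
    rw [← pow_add] at h5
    exact Ideal.pow_le_pow_right (by omega) h5
  have hj : ∀ j, j ≤ p → (N : S) * x ∈ I ^ j := by
    intro j
    induction j with
    | zero => intro _; simp
    | succ j ih =>
      intro hjp
      have h6 := hmid j (ih (by omega))
      have h7 : (N : S) * x = - (∑ m ∈ Ico 2 p, ((N.choose m / N : ℕ) : S)
          * (((N : S) * x) * x ^ (m - 1)) + ((N.choose p : ℕ) : S) * x ^ p + R) := by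
        linear_combination h1
      rw [h7]
      refine Submodule.neg_mem _ (Ideal.add_mem _ (Ideal.add_mem _ h6 ?_) ?_)
      · exact Ideal.mul_mem_left _ _ (Ideal.pow_le_pow_right hjp (Ideal.pow_mem_pow hx p))
      · exact Ideal.pow_le_pow_right (by omega) hRm
  have h8 : (N : S) * x + ((N.choose p : ℕ) : S) * x ^ p
      = - (∑ m ∈ Ico 2 p, ((N.choose m / N : ℕ) : S) * (((N : S) * x) * x ^ (m - 1)) + R) := by
    linear_combination h1
  rw [h8]
  exact Submodule.neg_mem _ (Ideal.add_mem _ (hmid p (hj p le_rfl)) hRm)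

/-- `p ^ (e - 1) (x ^ p y - x y ^ p) ∈ I ^ (p + 2)`. -/
theorem rel_pair {x y : S} (hx : x ∈ I) (hy : y ∈ I) {e : ℕ} (he : 1 ≤ e)
    (h1 : (1 + x) ^ (p ^ e) = 1) (h2 : (1 + y) ^ (p ^ e) = 1)
    (h3 : ((p ^ e : ℕ) : S) * x ∈ I ^ 2) :
    (((p : ℤ) ^ (e - 1) : ℤ) : S) * (x ^ p * y - x * y ^ p) ∈ I ^ (p + 2) := by
  set Z := x ^ p * y - x * y ^ p with hZ
  have a1 := Ideal.mul_mem_mul (rel_single hx he h1) hy
  have a2 := Ideal.mul_mem_mul (rel_single hy he h2) hx
  rw [← pow_succ] at a1 a2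
  have a3 : (((p ^ e).choose p : ℕ) : S) * Z ∈ I ^ (p + 2) := by
    have := Ideal.sub_mem _ a1 a2
    convert this using 1
    rw [hZ]
    ring
  have a4 : ((p ^ e : ℕ) : S) * Z ∈ I ^ (p + 2) := by
    have b1 : ((p ^ e : ℕ) : S) * Z = (((p ^ e : ℕ) : S) * x) * (x ^ (p - 1) * y - y ^ p) := by
      have : x ^ p = x * x ^ (p - 1) := by
        rw [← pow_succ']
        congr 1
        have := hp.out.pos
        omega
      rw [hZ, this]
      ring
    have b2 : x ^ (p - 1) * y - y ^ p ∈ I ^ p := by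
      refine Ideal.sub_mem _ ?_ (Ideal.pow_mem_pow hy p)
      have := Ideal.mul_mem_mul (Ideal.pow_mem_pow hx (p - 1)) hy
      rw [← pow_succ] at this
      have hpp : p - 1 + 1 = p := by
        have := hp.out.pos
        omega
      rwa [hpp] at this
    rw [b1]
    have b3 := Ideal.mul_mem_mul h3 b2
    rw [← pow_add] at b3
    rwa [add_comm 2 p] at b3
  obtain ⟨c, hc, hpc⟩ := choose_p (p := p) he
  have hcop : IsCoprime (p : ℤ) (c : ℤ) := by
    rw [Nat.isCoprime_iff_coprime, Nat.Prime.coprime_iff_not_dvd hp.out]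
    exact hpc
  obtain ⟨a, b, hab⟩ := hcop
  have h4 : (((p : ℤ) ^ (e - 1) : ℤ) : S) * Z
      = (a : S) * (((p ^ e : ℕ) : S) * Z) + (b : S) * ((((p ^ e).choose p : ℕ) : S) * Z) := by
    have h5 : ((p ^ e : ℕ) : S) = (((p : ℤ) ^ (e - 1) : ℤ) : S) * (p : S) := by
      have : p ^ e = p ^ (e - 1) * p := by
        rw [← pow_succ]
        congr 1
        omega
      rw [this]
      push_cast
      ring
    have h6 : (((p ^ e).choose p : ℕ) : S) = (((p : ℤ) ^ (e - 1) : ℤ) : S) * (c : S) := by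
      rw [hc]
      push_cast
      ring
    have h7 : (a : S) * (p : S) + (b : S) * (c : S) = 1 := by
      exact_mod_cast congrArg (Int.cast : ℤ → S) hab
    rw [h5, h6]
    linear_combination -(((p : ℤ) ^ (e - 1) : ℤ) : S) * Z * h7
  rw [h4]
  exact Ideal.add_mem _ (Ideal.mul_mem_left _ _ a4) (Ideal.mul_mem_left _ _ a3)

end relation

section cong

variable {S : Type} [CommRing S] {I : Ideal S}

/-- `u` and `v` lie in `I ^ a` and agree modulo `I ^ (a + 1)`. -/
def Cg (I : Ideal S) (a : ℕ) (u v : S) : Prop := u ∈ I ^ a ∧ v ∈ I ^ a ∧ u - v ∈ I ^ (a + 1)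

theorem Cg.mul {a b : ℕ} {u v u' v' : S} (h : Cg I a u v) (h' : Cg I b u' v') :
    Cg I (a + b) (u * u') (v * v') := by
  refine ⟨?_, ?_, ?_⟩
  · rw [pow_add]
    exact Ideal.mul_mem_mul h.1 h'.1
  · rw [pow_add]
    exact Ideal.mul_mem_mul h.2.1 h'.2.1
  · have e1 : u * u' - v * v' = (u - v) * u' + v * (u' - v') := by ring
    rw [e1]
    refine Ideal.add_mem _ ?_ ?_
    · have := Ideal.mul_mem_mul h.2.2 h'.1
      rw [← pow_add] at this
      have e2 : a + 1 + b = a + b + 1 := by ring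
      rwa [e2] at this
    · have := Ideal.mul_mem_mul h.2.1 h'.2.2
      rw [← pow_add] at this
      have e2 : a + (b + 1) = a + b + 1 := by ring
      rwa [e2] at this

theorem Cg.one : Cg I 0 (1 : S) 1 := by
  refine ⟨by simp, by simp, by simp⟩

theorem Cg.pow {u v : S} (h : Cg I 1 u v) (m : ℕ) : Cg I m (u ^ m) (v ^ m) := by
  induction m with
  | zero => simpa using Cg.one
  | succ m ih =>
    rw [pow_succ, pow_succ]
    exact ih.mul h

theorem Cg.prod {ι : Type} [Fintype ι] [DecidableEq ι] {u v : ι → S} {α : ι → ℕ}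
    (h : ∀ i, Cg I (α i) (u i) (v i)) : Cg I (∑ i, α i) (∏ i, u i) (∏ i, v i) := by
  classical
  have : ∀ T : Finset ι, Cg I (∑ i ∈ T, α i) (∏ i ∈ T, u i) (∏ i ∈ T, v i) := by
    intro T
    induction T using Finset.induction_on with
    | empty => simpa using Cg.one
    | insert a T ha ih =>
      rw [sum_insert ha, prod_insert ha, prod_insert ha]
      exact (h a).mul ih
  exact this univ

theorem Cg.mon {ι : Type} [Fintype ι] [DecidableEq ι] {u v : ι → S}
    (h : ∀ i, Cg I 1 (u i) (v i)) (α : ι → ℕ) : Cg I (∑ i, α i) (mon u α) (mon v α) :=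
  Cg.prod fun i => (h i).pow (α i)

end cong

end Pool.Agent.H20.MR
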