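import Pool.Agent.H20.MR.Elem

/-!
Forms of degree at most `p + 1` over the integers that vanish modulo `p ^ E` at all points
admissible at level `E`.
-/

set_option autoImplicit false
set_option linter.unusedSectionVars false

namespace Pool.Agent.H20.MR

open Finset

variable {ι : Type} [Fintype ι] [DecidableEq ι] {S : Type} [CommRing S]

section

variable {p : ℕ} [hp : Fact p.Prime] {n : ℕ} {k : (ι → ℕ) → ℤ} {e : ι → ℕ}

/-- The evaluation hypothesis. -/
def Ev (p n : ℕ) (k : (ι → ℕ) → ℤ) (e : ι → ℕ) : Prop :=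
  ∀ (E : ℕ) (c : ι → ℕ), (∀ i, p ^ E ∣ p ^ e i * c i) →
    ((p : ℤ) ^ E) ∣ ∑ α ∈ piAntidiag (univ : Finset ι) n, k α * ∏ i, (c i : ℤ) ^ α i

theorem Ev.fact (h : Ev p n k e) {α : ι → ℕ} (hα : ∑ i, α i = n) {E : ℕ}
    (hE : ∀ i, α i ≠ 0 → E ≤ e i) : (p : ℤ) ^ E ∣ (∏ i, ((α i).factorial : ℤ)) * k α := by
  apply dvd_factorial_mul k _ α (mem_deg.2 hα)
  intro c hc
  apply h E c
  intro i
  by_cases h0 : α i = 0
  · have : c i = 0 := by have := hc i; omega
    simp [this]
  · exact Dvd.dvd.mul_right (pow_dvd_pow _ (hE i h0)) _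

theorem coprime_fact {a : ℕ} (ha : a < p) : IsCoprime (p : ℤ) (a.factorial : ℤ) := by
  rw [Nat.isCoprime_iff_coprime, Nat.Prime.coprime_iff_not_dvd hp.out, hp.out.dvd_factorial]
  omega

theorem Ev.dvd_of_lt (h : Ev p n k e) {α : ι → ℕ} (hα : ∑ i, α i = n) {E : ℕ}
    (hE : ∀ i, α i ≠ 0 → E ≤ e i) (hlt : ∀ i, α i < p) : (p : ℤ) ^ E ∣ k α := by
  have h1 := h.fact hα hE
  refine IsCoprime.dvd_of_dvd_mul_left ?_ h1
  apply IsCoprime.pow_left
  exact IsCoprime.prod_right fun i _ => coprime_fact (hlt i)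

theorem prod_zero_of {c : ι → ℕ} {β : ι → ℕ} {l : ι} (hc : c l = 0) (hβ : β l ≠ 0) :
    ∏ i, (c i : ℤ) ^ β i = 0 := by
  apply prod_eq_zero (mem_univ l)
  rw [hc, Nat.cast_zero, zero_pow hβ]

theorem Ev.dvd_pure (h : Ev p n k e) (i : ι) {α : ι → ℕ}
    (hα : ∑ i, α i = n) (hpure : ∀ j, j ≠ i → α j = 0) : (p : ℤ) ^ e i ∣ k α := by
  have h1 := h (e i) (Pi.single i 1) (by
    intro j
    by_cases hj : j = i
    · subst hj
      simp
    · simp [hj])
  rw [sum_eq_single_of_mem α (mem_deg.2 hα)] at h1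
  · have h2 : ∏ j, (((Pi.single i 1 : ι → ℕ) j : ℕ) : ℤ) ^ α j = 1 := by
      apply prod_eq_one
      intro j _
      by_cases hj : j = i
      · subst hj
        simp
      · simp [hpure j hj]
    rw [h2, mul_one] at h1
    exact h1
  · intro β hβ hne
    have hex : ∃ l, l ≠ i ∧ β l ≠ 0 := by
      by_contra hcon
      push Not at hcon
      apply hne
      have hβ' := mem_deg.1 hβ
      have e1 := sum_eq_single_of_mem (f := α) i (mem_univ i) (fun j _ hj => hpure j hj)
      have e2 := sum_eq_single_of_mem (f := β) i (mem_univ i) (fun j _ hj => hcon j hj)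
      funext j
      by_cases hj : j = i
      · subst hj
        omega
      · rw [hpure j hj, hcon j hj]
    obtain ⟨l, hl, hl'⟩ := hex
    rw [prod_zero_of (l := l) (by simp [hl]) hl', mul_zero]

/-- The special exponent vector `p` at `i`, `1` at `j`. -/
def sp (p : ℕ) (i j : ι) : ι → ℕ := Pi.single i p + Pi.single j 1

theorem sp_left {i j : ι} (hij : i ≠ j) : sp p i j i = p := by simp [sp, hij]
theorem sp_right {i j : ι} (hij : i ≠ j) : sp p i j j = 1 := by simp [sp, hij.symm]
theorem sp_other {i j l : ι} (h1 : l ≠ i) (h2 : l ≠ j) : sp p i j l = 0 := by simp [sp, h1, h2]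

theorem sp_sum (i j : ι) : ∑ l, sp p i j l = p + 1 := by
  simp [sp, sum_add_distrib]

theorem two_le_sum {α : ι → ℕ} {i j : ι} (hij : i ≠ j) : α i + α j ≤ ∑ l, α l := by
  have e1 := add_sum_erase (univ : Finset ι) α (mem_univ i)
  have e2 := add_sum_erase (univ.erase i) α (show j ∈ univ.erase i by simp [hij.symm])
  omega

theorem three_le_sum {α : ι → ℕ} {i j l : ι} (hij : i ≠ j) (hl1 : l ≠ i) (hl2 : l ≠ j) :
    α i + α j + α l ≤ ∑ l, α l := by
  have e1 := add_sum_erase (univ : Finset ι) α (mem_univ i)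
  have e2 := add_sum_erase (univ.erase i) α (show j ∈ univ.erase i by simp [hij.symm])
  have e3 := add_sum_erase ((univ.erase i).erase j) α
    (show l ∈ (univ.erase i).erase j by simp [hl1, hl2])
  omega

/-- Trichotomy of exponent vectors of degree at most `p + 1`. -/
theorem tri {α : ι → ℕ} (hα : ∑ i, α i = n) (hn : n ≤ p + 1) :
    (∀ i, α i < p) ∨ (∃ i, ∀ j, j ≠ i → α j = 0) ∨
      (n = p + 1 ∧ ∃ i j, i ≠ j ∧ α = sp p i j) := by
  by_cases h1 : ∀ i, α i < p
  · exact Or.inl h1
  · right
    push Not at h1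
    obtain ⟨i, hi⟩ := h1
    by_cases h2 : ∀ j, j ≠ i → α j = 0
    · exact Or.inl ⟨i, h2⟩
    · right
      push Not at h2
      obtain ⟨j, hj, hj'⟩ := h2
      have h3 := two_le_sum (α := α) hj.symm
      refine ⟨by omega, i, j, hj.symm, ?_⟩
      funext l
      by_cases hli : l = i
      · subst hli
        rw [sp_left hj.symm]
        omega
      · by_cases hlj : l = j
        · subst hlj
          rw [sp_right hj.symm]
          omega
        · rw [sp_other hli hlj]
          have := three_le_sum (α := α) hj.symm hli hlj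
          omega

theorem Ev.sp_dvd (h : Ev p (p + 1) k e) {i j : ι} (hij : i ≠ j) {E : ℕ} (hi : E + 1 ≤ e i)
    (hj : E + 1 ≤ e j) : (p : ℤ) ^ E ∣ k (sp p i j) := by
  have h1 := h.fact (sp_sum i j) (E := E + 1) (by
    intro l hl
    by_cases hli : l = i
    · subst hli; exact hi
    · by_cases hlj : l = j
      · subst hlj; exact hj
      · exact absurd (sp_other hli hlj) hl)
  have h2 : (∏ l, ((sp p i j l).factorial : ℤ)) = (p : ℤ) * ((p - 1).factorial : ℤ) := by
    rw [prod_eq_single_of_mem i (mem_univ i)]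
    · rw [sp_left hij, ← Nat.mul_factorial_pred hp.out.ne_zero]
      push_cast
      ring
    · intro l _ hl
      by_cases hlj : l = j
      · subst hlj
        rw [sp_right hij]
        simp
      · rw [sp_other hl hlj]
        simp
  rw [h2, pow_succ, mul_comm ((p : ℤ) ^ E), mul_assoc] at h1
  have h3 : (p : ℤ) ^ E ∣ ((p - 1).factorial : ℤ) * k (sp p i j) :=
    (mul_dvd_mul_iff_left (by exact_mod_cast hp.out.ne_zero)).1 h1
  refine IsCoprime.dvd_of_dvd_mul_left ?_ h3
  exact IsCoprime.pow_left (coprime_fact (by have := hp.out.two_le; omega))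

/-- Common shape of the two point evaluations used below. -/
theorem Ev.sp_eval (h : Ev p (p + 1) k e) {i j : ι} (hij : i ≠ j) (b E : ℕ)
    (hi : E ≤ e i) (hj : p ^ E ∣ p ^ e j * b) :
    (p : ℤ) ^ E ∣ ∑ α ∈ piAntidiag (univ : Finset ι) (p + 1),
      k α * ∏ l, (((Pi.single i 1 + Pi.single j b : ι → ℕ) l : ℕ) : ℤ) ^ α l := by
  apply h E
  intro l
  by_cases hli : l = i
  · subst hli
    simpa [hij] using pow_dvd_pow p hi
  · by_cases hlj : l = j
    · subst hlj
      simpa [hli] using hj
    · simp [hli, hlj]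

theorem eval_two {i j : ι} (hij : i ≠ j) (b : ℕ) {α : ι → ℕ}
    (hα : ∀ l, l ≠ i → l ≠ j → α l = 0) :
    ∏ l, (((Pi.single i 1 + Pi.single j b : ι → ℕ) l : ℕ) : ℤ) ^ α l = (b : ℤ) ^ α j := by
  rw [prod_eq_single_of_mem j (mem_univ j)]
  · simp [hij.symm]
  · intro l _ hl
    by_cases hli : l = i
    · subst hli
      simp [hij]
    · simp [hα l hli hl]

theorem eval_two_zero {i j l : ι} (b : ℕ) {α : ι → ℕ} (hli : l ≠ i) (hlj : l ≠ j)
    (hα : α l ≠ 0) :
    ∏ l, (((Pi.single i 1 + Pi.single j b : ι → ℕ) l : ℕ) : ℤ) ^ α l = 0 :=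
  prod_zero_of (l := l) (by simp [hli, hlj]) hα

theorem sp_ne {i j : ι} (hij : i ≠ j) : sp p i j ≠ sp p j i := by
  intro h
  have h1 := congrFun h i
  rw [sp_left hij, sp_right hij.symm] at h1
  exact hp.out.ne_one h1

/-- Classification of the exponent vectors of degree `p + 1` supported on `{i, j}`. -/
theorem four {i j : ι} (hij : i ≠ j) {α : ι → ℕ} (hα : ∑ l, α l = p + 1)
    (hs : ∀ l, l ≠ i → l ≠ j → α l = 0) :
    (∀ l, l ≠ i → α l = 0) ∨ (∀ l, l ≠ j → α l = 0) ∨ α = sp p i j ∨ α = sp p j i ∨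
      (∀ l, α l < p) := by
  rcases tri (p := p) hα le_rfl with h | ⟨m, hm⟩ | ⟨-, a, b, hab, rfl⟩
  · exact Or.inr (Or.inr (Or.inr (Or.inr h)))
  · by_cases hmi : m = i
    · subst hmi
      exact Or.inl hm
    · by_cases hmj : m = j
      · subst hmj
        exact Or.inr (Or.inl hm)
      · exfalso
        have h0 : ∀ l, α l = 0 := by
          intro l
          by_cases hl : l = m
          · subst hl
            exact hs l hmi hmj
          · exact hm l hl
        simp [h0] at hα
  · have ha : a = i ∨ a = j := by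
      by_contra hcon
      push Not at hcon
      have := hs a hcon.1 hcon.2
      rw [sp_left hab] at this
      exact hp.out.ne_zero this
    have hb : b = i ∨ b = j := by
      by_contra hcon
      push Not at hcon
      have := hs b hcon.1 hcon.2
      rw [sp_right hab] at this
      omega
    rcases ha with rfl | rfl
    · rcases hb with rfl | rfl
      · exact absurd rfl hab
      · exact Or.inr (Or.inr (Or.inl rfl))
    · rcases hb with rfl | rfl
      · exact Or.inr (Or.inr (Or.inr (Or.inl rfl)))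
      · exact absurd rfl hab

theorem Ev.sp_add (h : Ev p (p + 1) k e) {i j : ι} (hij : i ≠ j) {E : ℕ} (hi : E ≤ e i)
    (hj : E ≤ e j) : (p : ℤ) ^ E ∣ k (sp p i j) + k (sp p j i) := by
  classical
  have h1 := h.sp_eval hij 1 E hi (by simpa using pow_dvd_pow p hj)
  have hm1 : sp p i j ∈ piAntidiag (univ : Finset ι) (p + 1) := mem_deg.2 (sp_sum i j)
  have hm2 : sp p j i ∈ (piAntidiag (univ : Finset ι) (p + 1)).erase (sp p i j) :=
    mem_erase.2 ⟨(sp_ne hij).symm, mem_deg.2 (sp_sum j i)⟩
  rw [← add_sum_erase _ _ hm1, ← add_sum_erase _ _ hm2, ← add_assoc] at h1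
  have h2 : (p : ℤ) ^ E ∣ ∑ α ∈ ((piAntidiag (univ : Finset ι) (p + 1)).erase
      (sp p i j)).erase (sp p j i),
      k α * ∏ l, (((Pi.single i 1 + Pi.single j 1 : ι → ℕ) l : ℕ) : ℤ) ^ α l := by
    refine dvd_sum fun α hα => ?_
    rw [mem_erase, mem_erase, mem_deg] at hα
    obtain ⟨hn2, hn1, hs⟩ := hα
    by_cases hsupp : ∀ l, l ≠ i → l ≠ j → α l = 0
    · refine Dvd.dvd.mul_right ?_ _
      rcases four hij hs hsupp with h | h | h | h | h
      · exact (pow_dvd_pow _ hi).trans (Ev.dvd_pure ‹_› i hs h)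
      · exact (pow_dvd_pow _ hj).trans (Ev.dvd_pure ‹_› j hs h)
      · exact absurd h hn1
      · exact absurd h hn2
      · refine Ev.dvd_of_lt ‹_› hs (fun l hl => ?_) h
        by_cases hli : l = i
        · subst hli; exact hi
        · by_cases hlj : l = j
          · subst hlj; exact hj
          · exact absurd (hsupp l hli hlj) hl
    · push Not at hsupp
      obtain ⟨l, h1, h2, h3⟩ := hsupp
      rw [eval_two_zero 1 h1 h2 h3, mul_zero]
      exact dvd_zero _
  have h3 := (dvd_add_left h2).1 h1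
  rw [eval_two hij 1 (fun l => sp_other), eval_two hij 1 (fun l a b => sp_other b a)] at h3
  simpa using h3

theorem Ev.sp_dvd_left (h : Ev p (p + 1) k e) {i j : ι} (hij : i ≠ j) (hj1 : 1 ≤ e j)
    (hlt : e j < e i) : (p : ℤ) ^ e j ∣ k (sp p i j) := by
  classical
  have hp2 := hp.out.two_le
  have h1 := h.sp_eval hij p (e j + 1) hlt (by rw [pow_succ])
  have hm1 : sp p i j ∈ piAntidiag (univ : Finset ι) (p + 1) := mem_deg.2 (sp_sum i j)
  rw [← add_sum_erase _ _ hm1] at h1
  have h2 : (p : ℤ) ^ (e j + 1) ∣ ∑ α ∈ (piAntidiag (univ : Finset ι) (p + 1)).erase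
      (sp p i j),
      k α * ∏ l, (((Pi.single i 1 + Pi.single j p : ι → ℕ) l : ℕ) : ℤ) ^ α l := by
    refine dvd_sum fun α hα => ?_
    rw [mem_erase, mem_deg] at hα
    obtain ⟨hn1, hs⟩ := hα
    by_cases hsupp : ∀ l, l ≠ i → l ≠ j → α l = 0
    · rw [eval_two hij p hsupp]
      rcases four hij hs hsupp with h | h | h | h | h
      · exact Dvd.dvd.mul_right ((pow_dvd_pow _ hlt).trans (Ev.dvd_pure ‹_› i hs h)) _
      · rw [pow_add]
        refine mul_dvd_mul (Ev.dvd_pure ‹_› j hs h) (pow_dvd_pow _ ?_)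
        have := sum_eq_single_of_mem (f := α) j (mem_univ j) (fun l _ hl => h l hl)
        omega
      · exact absurd h hn1
      · subst h
        have h4 : (p : ℤ) ^ (e j - 1) ∣ k (sp p j i) :=
          Ev.sp_dvd ‹_› hij.symm (by omega) (by omega)
        rw [sp_left hij.symm]
        have h5 : (p : ℤ) ^ (e j + 1) = (p : ℤ) ^ (e j - 1) * (p : ℤ) ^ 2 := by
          rw [← pow_add]
          congr 1
          omega
        rw [h5]
        exact mul_dvd_mul h4 (pow_dvd_pow _ hp2)
      · rw [pow_succ]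
        have hαi := h i
        have hpos : 2 ≤ α j := by
          have e1 := add_sum_erase (univ : Finset ι) α (mem_univ i)
          have e2 := sum_eq_single_of_mem (s := univ.erase i) (f := α) j
            (by simp [hij.symm]) (fun l hl hl' => hsupp l (mem_erase.1 hl).1 hl')
          omega
        refine mul_dvd_mul (Ev.dvd_of_lt ‹_› hs (fun l hl => ?_) h) ?_
        · by_cases hli : l = i
          · subst hli; omega
          · by_cases hlj : l = j
            · subst hlj; exact le_rfl
            · exact absurd (hsupp l hli hlj) hl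
        · exact dvd_pow_self _ (by omega)
    · push Not at hsupp
      obtain ⟨l, h1, h2, h3⟩ := hsupp
      rw [eval_two_zero p h1 h2 h3, mul_zero]
      exact dvd_zero _
  have h3 := (dvd_add_left h2).1 h1
  rw [eval_two hij p (fun l => sp_other), sp_right hij, pow_one, pow_succ] at h3
  exact (mul_dvd_mul_iff_right (by exact_mod_cast hp.out.ne_zero)).1 h3

end

theorem int_mul_mon_mem {I : Ideal S} {x : ι → S} (hx : ∀ i, x i ∈ I) {n : ℕ} {α : ι → ℕ}
    (hα : ∑ i, α i = n) {j : ι} (hj : α j ≠ 0) {N m : ℤ} (hN : (N : S) * x j ∈ I ^ 2)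
    (hm : N ∣ m) : (m : S) * mon x α ∈ I ^ (n + 1) := by
  obtain ⟨t, rfl⟩ := hm
  have h1 := mul_mon_mem hx hα hj hN
  have h2 : ((N * t : ℤ) : S) * mon x α = (t : S) * ((N : S) * mon x α) := by
    push_cast
    ring
  rw [h2]
  exact Ideal.mul_mem_left _ _ h1

/-- **Degree at most `p + 1`.** -/
theorem mem_of_eval_small {I : Ideal S} {x : ι → S} (hx : ∀ i, x i ∈ I) {p : ℕ}
    [hp : Fact p.Prime] {e : ι → ℕ} (he : ∀ i, 1 ≤ e i)
    (hpx : ∀ i, (((p : ℤ) ^ e i : ℤ) : S) * x i ∈ I ^ 2)
    (hrel : ∀ i j, e i = e j →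
      (((p : ℤ) ^ (e i - 1) : ℤ) : S) * (x i ^ p * x j - x i * x j ^ p) ∈ I ^ (p + 2))
    {n : ℕ} (hn : 1 ≤ n) (hnp : n ≤ p + 1) {k : (ι → ℕ) → ℤ} (hev : Ev p n k e) :
    ∑ α ∈ piAntidiag (univ : Finset ι) n, (k α : S) * mon x α ∈ I ^ (n + 1) := by
  classical
  have hgood : ∀ α : ι → ℕ, ∑ i, α i = n →
      ((∀ i, α i < p) ∨ (∃ i, ∀ j, j ≠ i → α j = 0)) → (k α : S) * mon x α ∈ I ^ (n + 1) := by
    intro α hα hcase
    rcases hcase with h | ⟨i, hi⟩
    · have hex : (univ.filter fun i => α i ≠ 0).Nonempty := by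
        rw [filter_nonempty_iff]
        by_contra hcon
        push Not at hcon
        have : ∑ i, α i = 0 := sum_eq_zero fun i hi => hcon i hi
        omega
      obtain ⟨j, hj, hmin⟩ := exists_min_image _ e hex
      rw [mem_filter] at hj
      refine int_mul_mon_mem hx hα hj.2 (hpx j) (hev.dvd_of_lt hα (fun i hi => ?_) h)
      exact hmin i (by simp [hi])
    · have hne : α i ≠ 0 := by
        have := sum_eq_single_of_mem (f := α) i (mem_univ i) (fun l _ hl => hi l hl)
        omega
      exact int_mul_mon_mem hx hα hne (hpx i) (hev.dvd_pure i hα hi)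
  by_cases hn1 : n = p + 1
  · subst hn1
    set T := piAntidiag (univ : Finset ι) (p + 1) with hT
    set F : (ι → ℕ) → S ⧸ (I ^ (p + 1 + 1)) :=
      fun α => Ideal.Quotient.mk _ ((k α : S) * mon x α) with hF
    rw [← Ideal.Quotient.eq_zero_iff_mem, map_sum]
    have hinj : Set.InjOn (fun q : ι × ι => sp p q.1 q.2)
        ((univ : Finset ι).offDiag : Set (ι × ι)) := by
      rintro ⟨a, b⟩ hab ⟨c, d⟩ hcd heq
      simp only [coe_offDiag, Set.mem_offDiag, mem_coe, mem_univ, true_and] at hab hcd
      simp only at heq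
      have hac : a = c := by
        by_contra hne
        have h1 := congrFun heq a
        rw [sp_left hab] at h1
        by_cases had : a = d
        · subst had
          rw [sp_right hcd] at h1
          exact hp.out.ne_one h1
        · rw [sp_other hne had] at h1
          exact hp.out.ne_zero h1
      subst hac
      have hbd : b = d := by
        by_contra hne
        have h1 := congrFun heq b
        rw [sp_right hab, sp_other hab.symm hne] at h1
        omega
      rw [hbd]
    have hsub : (univ : Finset ι).offDiag.image (fun q : ι × ι => sp p q.1 q.2) ⊆ T := by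
      intro α hα
      obtain ⟨q, -, rfl⟩ := mem_image.1 hα
      exact mem_deg.2 (sp_sum _ _)
    have hzero : ∀ α ∈ T, α ∉ (univ : Finset ι).offDiag.image
        (fun q : ι × ι => sp p q.1 q.2) → F α = 0 := by
      intro α hα hnot
      rw [hF]
      simp only
      rw [Ideal.Quotient.eq_zero_iff_mem]
      apply hgood α (mem_deg.1 hα)
      rcases tri (p := p) (mem_deg.1 hα) le_rfl with h | h | ⟨-, i, j, hij, rfl⟩
      · exact Or.inl h
      · exact Or.inr h
      · exact absurd (mem_image.2 ⟨(i, j), by simp [hij], rfl⟩) hnot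
    rw [← sum_subset hsub hzero, sum_image hinj]
    have hpair : ∀ i j : ι, i ≠ j → F (sp p i j) + F (sp p j i) = 0 := by
      intro i j hij
      rw [hF]
      simp only
      rw [← map_add, Ideal.Quotient.eq_zero_iff_mem]
      rcases lt_trichotomy (e i) (e j) with hlt | heq | hlt
      · have h1 : (p : ℤ) ^ e i ∣ k (sp p j i) := hev.sp_dvd_left hij.symm (he i) hlt
        have h2 : (p : ℤ) ^ e i ∣ k (sp p i j) :=
          (dvd_add_left h1).1 (hev.sp_add hij le_rfl hlt.le)
        refine Ideal.add_mem _ ?_ ?_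
        · exact int_mul_mon_mem hx (sp_sum i j) (j := i)
            (by rw [sp_left hij]; exact hp.out.ne_zero) (hpx i) h2
        · exact int_mul_mon_mem hx (sp_sum j i) (j := i)
            (by rw [sp_right hij.symm]; exact one_ne_zero) (hpx i) h1
      · have h1 : (p : ℤ) ^ (e i - 1) ∣ k (sp p i j) :=
          hev.sp_dvd hij (by have := he i; omega) (by have := he i; omega)
        have h2 : (p : ℤ) ^ e i ∣ k (sp p i j) + k (sp p j i) :=
          hev.sp_add hij le_rfl heq.le
        have m1 : mon x (sp p i j) = x i ^ p * x j := by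
          rw [sp, mon_add, mon_single, mon_single, pow_one]
        have m2 : mon x (sp p j i) = x i * x j ^ p := by
          rw [sp, mon_add, mon_single, mon_single, pow_one]
          ring
        have h3 : (k (sp p i j) : S) * mon x (sp p i j) + (k (sp p j i) : S) * mon x (sp p j i)
            = (k (sp p i j) : S) * (x i ^ p * x j - x i * x j ^ p)
              + ((k (sp p i j) + k (sp p j i) : ℤ) : S) * mon x (sp p j i) := by
          rw [m1, m2]
          push_cast
          ring
        rw [h3]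
        refine Ideal.add_mem _ ?_ ?_
        · obtain ⟨t, ht⟩ := h1
          rw [ht]
          have h4 := Ideal.mul_mem_left _ (t : S) (hrel i j heq)
          have h5 : (((p : ℤ) ^ (e i - 1) * t : ℤ) : S) * (x i ^ p * x j - x i * x j ^ p)
              = (t : S) * ((((p : ℤ) ^ (e i - 1) : ℤ) : S)
                * (x i ^ p * x j - x i * x j ^ p)) := by
            push_cast
            ring
          rw [h5]
          exact h4
        · exact int_mul_mon_mem hx (sp_sum j i) (j := i)
            (by rw [sp_right hij.symm]; exact one_ne_zero) (hpx i) h2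
      · have h1 : (p : ℤ) ^ e j ∣ k (sp p i j) := hev.sp_dvd_left hij (he j) hlt
        have h2 : (p : ℤ) ^ e j ∣ k (sp p j i) :=
          (dvd_add_right h1).1 (hev.sp_add hij hlt.le le_rfl)
        refine Ideal.add_mem _ ?_ ?_
        · exact int_mul_mon_mem hx (sp_sum i j) (j := j)
            (by rw [sp_right hij]; exact one_ne_zero) (hpx j) h1
        · exact int_mul_mon_mem hx (sp_sum j i) (j := j)
            (by rw [sp_left hij.symm]; exact hp.out.ne_zero) (hpx j) h2
    refine sum_involution (fun q _ => (q.2, q.1)) ?_ ?_ ?_ ?_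
    · rintro ⟨a, b⟩ hab
      simp only [mem_offDiag, mem_univ, true_and] at hab
      exact hpair a b hab
    · rintro ⟨a, b⟩ hab _
      simp only [mem_offDiag, mem_univ, true_and] at hab
      intro hcon
      exact hab (Prod.mk.inj hcon).2
    · rintro ⟨a, b⟩ hab
      simp only [mem_offDiag, mem_univ, true_and] at hab ⊢
      exact hab.symm
    · rintro ⟨a, b⟩ _
      rfl
  · refine Ideal.sum_mem _ fun α hα => hgood α (mem_deg.1 hα) ?_
    rcases tri (p := p) (mem_deg.1 hα) hnp with h | h | ⟨h, -⟩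
    · exact Or.inl h
    · exact Or.inr h
    · exact absurd h hn1

end Pool.Agent.H20.MR
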