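import Pool.Agent.H20.MR.KL

/-!
The Mazur-Rubin formula for a tower of subextensions, in module theoretic form.

`G` is the Galois group of `K/k`, `H ≤ G` the Galois group of `K/L`, `U` the module of
`(S,T)`-units of `K`; a subgroup `J` of `H` stands for the intermediate field `K^J`.
-/

set_option autoImplicit false
set_option linter.unusedSectionVars false

namespace Pool.Agent.H20.MR

open scoped TensorProduct

section ring

/-- The integral group ring `ℤ[A]`. -/
abbrev ZG (A : Type) [CommGroup A] : Type := MonoidAlgebra ℤ A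

variable {A : Type} [CommGroup A]

/-- A group element as an element of the group ring. -/
noncomputable def el (a : A) : ZG A := MonoidAlgebra.of ℤ A a

/-- The augmentation ideal `I(A)` of `ℤ[A]`: the ideal generated by the elements `a - 1`. -/
noncomputable def augI (A : Type) [CommGroup A] : Ideal (ZG A) :=
  Ideal.span (Set.range fun a : A => el a - 1)

/-- `ℤ[A] / I(A)^(d+1)`. -/
def AugQuo (A : Type) [CommGroup A] (d : ℕ) : Type := ZG A ⧸ (augI A) ^ (d + 1)

noncomputable instance (d : ℕ) : AddCommGroup (AugQuo A d) :=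
  (inferInstance : AddCommGroup (ZG A ⧸ (augI A) ^ (d + 1)))

/-- The class of a group element in `ℤ[A] / I(A)^(d+1)`. -/
noncomputable def cls (d : ℕ) (a : A) : AugQuo A d :=
  Ideal.Quotient.mk ((augI A) ^ (d + 1)) (el a)

end ring

section lattice

variable {G : Type} [CommGroup G] (H : Subgroup G) (U : Type) [AddCommGroup U]
  [Module (ZG G) U]

/-- The submodule `U^J` of elements fixed by `J`. -/
noncomputable def fixedBy (J : Subgroup H) : Submodule (ZG G) U where
  carrier := {u | ∀ τ ∈ J, el (τ : G) • u = u}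
  add_mem' := by
    intro u v hu hv τ hτ
    rw [smul_add, hu τ hτ, hv τ hτ]
  zero_mem' := by
    intro τ _
    rw [smul_zero]
  smul_mem' := by
    intro z u hu τ hτ
    rw [smul_smul, mul_comm, ← smul_smul, hu τ hτ]

theorem fixedBy_le {J J' : Subgroup H} (h : J ≤ J') : fixedBy H U J' ≤ fixedBy H U J :=
  fun _ hu τ hτ => hu τ (h hτ)

/-- `Hom_G(U^J, ℤ[G])`. -/
abbrev Hm (J : Subgroup H) : Type := fixedBy H U J →ₗ[ZG G] ZG G

/-- For `J ≤ J'`, the restriction of homomorphisms from `U^J` to `U^{J'}`. -/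
noncomputable def restr {J J' : Subgroup H} (h : J ≤ J') : Hm H U J →ₗ[ZG G] Hm H U J' :=
  LinearMap.lcomp (ZG G) (ZG G) (Submodule.inclusion (fixedBy_le H U h))

/-- The Rubin lattice of `K^J` in exterior degree `r`: the alternating `ℤ[G]`-multilinear maps
`Hom_G(U^J, ℤ[G])^r → ℤ[G]^J`. -/
def Rub (r : ℕ) (J : Subgroup H) : Type := Hm H U J [⋀^Fin r]→ₗ[ZG G] fixedBy H (ZG G) J

noncomputable instance rubGroup (r : ℕ) (J : Subgroup H) : AddCommGroup (Rub H U r J) := by
  delta Rub
  infer_instance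

noncomputable instance rubModule (r : ℕ) (J : Subgroup H) : Module (ZG G) (Rub H U r J) := by
  delta Rub
  infer_instance

/-- The map `ν` from the Rubin lattice of `K^{J'}` to that of `K^J` for `J ≤ J'`: composition
with the restriction of homomorphisms from `U^J` to `U^{J'}`. -/
noncomputable def nu {r : ℕ} {J J' : Subgroup H} (h : J ≤ J') (a : Rub H U r J') :
    Rub H U r J :=
  (LinearMap.compAlternatingMap (Submodule.inclusion (fixedBy_le H (ZG G) h)) a).compLinearMap
    (restr H U h)

variable {H}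

/-- The elementary tensor `a ⊗ q` in the tensor product of the Rubin lattice of `K^J` with
`ℤ[H/J] / I(H/J)^(d+1)`. -/
noncomputable def tens (d : ℕ) {r : ℕ} {J : Subgroup H} (a : Rub H U r J) (q : H ⧸ J) :
    Rub H U r J ⊗[ℤ] AugQuo (H ⧸ J) d := a ⊗ₜ[ℤ] cls d q

/-- `𝒩(a) = ∑ σ a ⊗ σ⁻¹`, the sum over `σ ∈ H/J = Gal(K^J/L)`. -/
noncomputable def normSum (d : ℕ) {r : ℕ} {J : Subgroup H} (a : Rub H U r J) :
    Rub H U r J ⊗[ℤ] AugQuo (H ⧸ J) d :=
  ∑ᶠ q : H ⧸ J, tens U d (el ((Quotient.out q : H) : G) • a) q⁻¹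

/-- The norm relation between `ε K` and `ε (K^J)`, for all `J ≤ H`. -/
def NormRelation {r : ℕ} (ε : ∀ J : Subgroup H, Rub H U r J) : Prop :=
  ∀ J : Subgroup H, nu H U bot_le (ε J) = ∑ᶠ τ : J, el ((τ : H) : G) • ε ⊥

/-- The Mazur-Rubin formula for `K^J/L` with right hand side the image of
`∑ e h ⊗ h`, the sum over `h ∈ H`. -/
def MRFormula (d : ℕ) {r : ℕ} (ε : ∀ J : Subgroup H, Rub H U r J)
    (e : H → Rub H U r (⊤ : Subgroup H)) (J : Subgroup H) : Prop :=
  normSum U d (ε J) = ∑ᶠ h : H, tens U d (nu H U le_top (e h)) (QuotientGroup.mk h)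

end lattice

end Pool.Agent.H20.MR
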